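import Pool.Agent.NUTV.BrE
import Pool.Agent.NUT2.Tp6
import Pool.Agent.NUT51.Val

/-!
# The pairing without full lines: the fields `R0`, ..., `ER0` (helper51)
-/

set_option autoImplicit false

namespace Pool.Agent.NUTV

open _root_.Pool.Agent.EXL _root_.Pool.Agent.EXL.Pat
open _root_.Pool.Agent.EXL.Fm (lam)
open _root_.Pool.Agent.NUF _root_.Pool.Agent.NUU _root_.Pool.Agent.NUT2 _root_.Pool.Agent.NUT51
open _root_.Pool.Agent.NUF.LPat
open Complex (I exp sin cos)

namespace PN0

variable {ι : Type*} [DecidableEq ι]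

/-- The kernel of the pairing without full lines. -/
noncomputable def KK (m k : ι) (p : EXL.Pat ι) : ℂ :=
  Tw (Pi.single k (1 : ZMod 2)) (Gf (nu2 1) m k []) (ofP (ZMod 2) p)

theorem Wp_KK (V V' : Fnl ι) (m k : ι) : Wp (nu2 1) (Pi.single k (1 : ZMod 2)) V V' m k [] =
    V (fun p => V' (fun q => KK m k (un p q))) := rfl

theorem KK_eq (m k : ι) (p : EXL.Pat ι) : KK m k p = oo (nu2 1) m ((cops (nu2 1)).glue m k (dl (ZMod 2) ι))
    (gau (Pi.single k (1 : ZMod 2)) (ofP (ZMod 2) p)) := rfl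

omit [DecidableEq ι] in
theorem dl_self51 : dl (ZMod 2) ι LPat.empty = 1 := by
  unfold dl
  exact if_pos rfl

omit [DecidableEq ι] in
theorem dl_ne {p : LPat (ZMod 2) ι} {x : ι} (h : p x ≠ x) : dl (ZMod 2) ι p = 0 := by
  unfold dl
  rw [if_neg]
  rintro rfl
  exact h rfl

/-- **The kernel.** -/
theorem KK_val {m k : ι} (hmk : m ≠ k) (p : EXL.Pat ι) : KK m k p = (HS.ind (arc m k) : EXL.Pat ι → ℂ) p := by
  rw [KK_eq]
  set R := gau (Pi.single k (1 : ZMod 2)) (ofP (ZMod 2) p) with hR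
  have hf : ∀ x, R x = p x := fun x => rfl
  have hs : ∀ x, R.s x = 0 + (Pi.single k (1 : ZMod 2) : ι → ZMod 2) x -
    (Pi.single k (1 : ZMod 2) : ι → ZMod 2) (p x) := fun x => rfl
  rw [oo_apply]
  by_cases h1 : R m = m
  · rw [if_pos h1, EXL.HS.ind_ne]
    rintro rfl
    rw [hf, arc_apply, if_pos rfl] at h1
    exact hmk h1.symm
  rw [if_neg h1]
  by_cases h2 : R k = k
  · rw [glue_l hmk h1 h2, EXL.HS.ind_ne]
    rintro rfl
    rw [hf, arc_apply, if_neg hmk.symm, if_pos rfl] at h2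
    exact hmk h2
  rw [glue_occ hmk h1 h2]
  by_cases h3 : R m = k
  · have hl : R.s m = 1 := by
      have h3' : p m = k := h3
      rw [hs, h3', Pi.single_eq_same, Pi.single_eq_of_ne hmk]
      decide
    rw [lw_pos R _ h3, hl, jo_pos R h3]
    have hnu : nu2 1 (1 : ZMod 2) = 1 := if_neg (by decide)
    rw [hnu, one_mul]
    by_cases h4 : p = arc m k
    · rw [h4, EXL.HS.ind_self]
      have e : LPat.rem m k R = LPat.empty := by
        refine LPat.ext (funext fun x => ?_) (funext fun x => ?_)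
        · show LPat.rem m k R x = x
          rw [rem_f h3]
          split_ifs with a1 a2
          · exact a1.symm
          · exact a2.symm
          · rw [hf, h4, arc_apply, if_neg a1, if_neg a2]
        · show (LPat.rem m k R).s x = 0
          have : (LPat.rem m k R).s x = if R m = k then (if x = m then 0 else if x = k then 0 else R.s x)
            else R.s x := rfl
          rw [this, if_pos h3]
          split_ifs with a1 a2
          · rfl
          · rfl
          · rw [hs, h4, arc_apply, if_neg a1, if_neg a2, zero_add, sub_self]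
      rw [e, dl_self51]
    · rw [EXL.HS.ind_ne h4]
      obtain ⟨x, hx⟩ : ∃ x, p x ≠ arc m k x := by
        by_contra hh
        push Not at hh
        exact h4 (EXL.Pat.ext (funext hh))
      have h3' : p m = k := h3
      have hxm : x ≠ m := by
        rintro rfl
        rw [arc_apply, if_pos rfl] at hx
        exact hx h3'
      have hxk : x ≠ k := by
        rintro rfl
        rw [arc_apply, if_neg hxm, if_pos rfl, ← h3', p.inv] at hx
        exact hx rfl
      refine dl_ne (x := x) ?_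
      rw [rem_f h3, if_neg hxm, if_neg hxk, hf]
      rwa [arc_apply, if_neg hxm, if_neg hxk] at hx
  · have hc : CtOK m k R := ⟨hmk, h1, h2, h3⟩
    have e1 : R (R m) = m := R.inv m
    have e2 : R (R k) = k := R.inv k
    have h4 : jo m k R (R m) ≠ R m := by
      rw [jo_neg R h3, cut_f hc, if_neg h1, if_neg h3, if_pos rfl]
      intro e
      exact hmk (by rw [← e1, ← e, e2])
    rw [dl_ne h4, mul_zero, EXL.HS.ind_ne]
    rintro rfl
    rw [hf, arc_apply, if_pos rfl] at h3
    exact h3 rfl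

omit [DecidableEq ι] in
theorem ind_at {p q : EXL.Pat ι} (x : ι) (h : p x ≠ q x) : (HS.ind q : EXL.Pat ι → ℂ) p = 0 :=
  HS.ind_ne fun e => h (by rw [e])

/-- The pairing on the canonical sites. -/
theorem WC_nil {ε : ℂ} {v : Fin 6 → ℂ} {A B : List (Fin 6)} {m k : Fin 6} (hmk : m ≠ k) :
    WC ε [] [] v A B m k = UD (fun i => -ε * zc [] [] v i) (A.map sc ++ [sc 0]) (fun p =>
      UD (fun i => ε * zc [] [] v i) (B.map sc ++ [sc 1]) (fun q =>
        HS.ind (arc (sc m) (sc k)) (un p q))) := by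
  have e : WC ε [] [] v A B m k = UD (fun i => -ε * zc [] [] v i) (A.map sc ++ [sc 0]) (fun p =>
      UD (fun i => ε * zc [] [] v i) (B.map sc ++ [sc 1]) (fun q =>
        KK (sc m) (sc k) (un p q))) := rfl
  rw [e]
  simp only [KK_val (sc_inj.ne hmk)]

theorem un_left' (q : EXL.Pat ι) : un EXL.Pat.empty q = q := by
  have h : Dj EXL.Pat.empty q := fun x => Or.inl rfl
  rw [un_comm h, un_empty]

/-- The arc which ends at `q` cannot come from the second disc. -/
theorem WC_zero {ε : ℂ} {v : Fin 6 → ℂ} {A B : List (Fin 6)} {m : Fin 6}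
    (hA : (0 :: 1 :: (A ++ B)).Nodup) (hm : m ∈ B) : WC ε [] [] v A B m 0 = 0 := by
  have hm0 : m ≠ 0 := by
    rintro rfl
    exact (List.nodup_cons.1 hA).1 (by simp [hm])
  have hmA : m ∉ A := by
    intro h
    have h2 := (List.nodup_cons.1 (List.nodup_cons.1 hA).2).2
    exact (List.nodup_append.1 h2).2.2 m h m hm rfl
  have h0B : (0 : Fin 6) ∉ B := fun h => (List.nodup_cons.1 hA).1 (by simp [h])
  rw [WC_nil hm0]
  refine NUT2.UD_supS _ _ _ fun p hp => ?_
  refine NUT2.UD_supS _ _ _ fun q hq => ?_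
  refine ind_at (sc m) ?_
  have hp' : p (sc m) = sc m := hp _ (by
    simp only [Set.mem_ofPred_eq, List.mem_append, List.mem_map, List.mem_cons,
      List.not_mem_nil, or_false, not_or, not_exists, not_and]
    exact ⟨fun x hx e => hmA (by rw [← sc_inj e]; exact hx), fun e => hm0 (sc_inj e)⟩)
  have hq' : q (sc 0) = sc 0 := hq _ (by
    simp only [Set.mem_ofPred_eq, List.mem_append, List.mem_map, List.mem_cons,
      List.not_mem_nil, or_false, not_or, not_exists, not_and]
    exact ⟨fun x hx e => h0B (by rw [← sc_inj e]; exact hx), fun e =>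
      absurd (sc_inj e) (by decide)⟩)
  rw [arc_apply, if_pos rfl]
  by_cases hd : Dj p q
  · rw [un_apply hd, if_pos hp']
    intro e
    have h2 : q (q (sc m)) = sc m := q.inv _
    rw [e, hq'] at h2
    exact hm0 (sc_inj h2).symm
  · have e1 : un p q (sc m) = p (sc m) := by
      classical
      show (if Dj p q then (if p (sc m) = sc m then q (sc m) else p (sc m)) else p (sc m)) = _
      rw [if_neg hd]
    rw [e1, hp']
    exact fun e => hm0 (sc_inj e)

theorem sc_eq {n m : ℕ} {i j : Fin 6} : (sc i : Sc n m) = sc j ↔ i = j := sc_inj.eq_iff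

theorem z_sc {ε : ℂ} {v : Fin 6 → ℂ} (j : Fin 6) :
    (fun i => ε * zc [] [] v i) (sc j : Sc 0 0) = ε * lg (v j) := rfl

/-- The state with the arc `i`-`j` and the kernel. -/
theorem kk_arc {i j m : Fin 6} (h : arc (sc i : Sc 0 0) (sc j) (sc m) ≠ sc 0) :
    (HS.ind (arc (sc m : Sc 0 0) (sc 0)) : EXL.Pat (Sc 0 0) → ℂ) (arc (sc i) (sc j)) = 0 := by
  refine ind_at (sc m) ?_
  rw [arc_apply (sc m) (sc 0), if_pos rfl]
  exact h

theorem kk_empty {m : Fin 6} (hm : m ≠ 0) :
    (HS.ind (arc (sc m : Sc 0 0) (sc 0)) : EXL.Pat (Sc 0 0) → ℂ) EXL.Pat.empty = 0 := by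
  refine ind_at (sc m) ?_
  rw [arc_apply, if_pos rfl]
  exact fun e => hm (sc_inj e)

theorem s3_sn {ε : ℂ} (hε : Sg ε) (x y : ℂ) :
    NUTP.sn (te ε) 3 (NUTP.ea x / NUTP.ea y) = s3 (ε * (x - y)) := by
  rw [te_sn_div hε]
  unfold s3
  push_cast
  rfl

theorem sn11 {ε : ℂ} (hε : Sg ε) : NUTP.sn (te ε) 1 1 = sin lam := by
  rw [te_s1 hε, c3_sin]

end PN0

open PN0 in
theorem fam_L0 (q g : ℂ) : ∀ h, NUTP.G NUTP.th [h, q, g] → (fam 1 0 q g).L [] [] h = 0 := fun _ _ =>
  WC_zero (A := []) (B := [2]) (by decide) (by decide)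

open PN0 in
theorem fam_OE'0 (q g : ℂ) : ∀ a b, NUTP.G NUTP.th [a, b, q, g] →
    (fam 1 0 q g).OE' [] [] a b = 0 := fun _ _ _ =>
  WC_zero (A := []) (B := [2, 3]) (by decide) (by decide)

open PN0 in
theorem fam_EO'0 (q g : ℂ) : ∀ a b, NUTP.G NUTP.th [a, b, q, g] →
    (fam 1 0 q g).EO' [] [] a b = 0 := fun _ _ _ =>
  WC_zero (A := []) (B := [2, 3]) (by decide) (by decide)

open PN0 in
theorem fam_ER0 (q g : ℂ) : ∀ r h, NUTP.G NUTP.th [r, h, q, g] →
    (fam 1 0 q g).ER [] [] r h = 0 := fun _ _ _ =>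
  WC_zero (A := [2]) (B := [3]) (by decide) (by decide)

open PN0 in
theorem fam_R0 (q g : ℂ) : ∀ p, NUTP.G NUTP.th [p, q, g] →
    (fam 1 0 q g).R [] [] p = NUTP.sn NUTP.th 1 1 := by
  intro p _
  have e : (fam 1 0 q g).R [] [] p = WC 1 [] [] ![q, g, p, 1, 1, 1] [2] [] 2 0 := rfl
  rw [e, WC_nil (by decide)]
  simp only [List.map_cons, List.map_nil, List.nil_append, List.cons_append]
  rw [UD_two (fun e => absurd (sc_inj e) (by decide)), UD_one]
  simp only [ev0_apply, un_empty]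
  rw [kk_empty (by decide), HS.ind_self, mul_zero, zero_add, mul_one, ← te_one, sn11 (Or.inl rfl)]

open PN0 in
theorem fam_RE0 (q g : ℂ) : ∀ p h, NUTP.G NUTP.th [p, h, q, g] →
    (fam 1 0 q g).RE [] [] p h = NUTP.sn NUTP.th 1 1 * NUTP.cs (h / g) := by
  intro p h hG
  have hh : h ≠ 0 := hG.mem_ne0 (by simp)
  have hg : g ≠ 0 := hG.mem_ne0 (by simp)
  have e : (fam 1 0 q g).RE [] [] p h = WC 1 [] [] ![q, g, p, h, 1, 1] [2] [3] 2 0 := rfl
  have ce : NUTP.cs (h / g) = cos (lg h - lg g) := by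
    conv_lhs => rw [← exp_lg hh, ← exp_lg hg]
    exact NUTP.cs_div _ _
  rw [e, WC_nil (by decide)]
  simp only [List.map_cons, List.map_nil, List.nil_append, List.cons_append]
  rw [UD_two (fun e => absurd (sc_inj e) (by decide))]
  simp only [UD_two (show (sc 3 : Sc 0 0) ≠ sc 1 from fun e => absurd (sc_inj e) (by decide)),
    un_empty, un_left']
  have k1 : (HS.ind (arc (sc 2 : Sc 0 0) (sc 0)) : EXL.Pat (Sc 0 0) → ℂ) (arc (sc 3) (sc 1)) = 0 :=
    kk_arc (by rw [arc_apply]; simp [sc_eq])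
  have k2 : (HS.ind (arc (sc 2 : Sc 0 0) (sc 0)) : EXL.Pat (Sc 0 0) → ℂ)
      (un (arc (sc 2) (sc 0)) (arc (sc 3) (sc 1))) = 0 := by
    refine ind_at (sc 3) ?_
    have hd : Dj (arc (sc 2 : Sc 0 0) (sc 0)) (arc (sc 3) (sc 1)) := by
      intro x
      by_cases h1 : x = sc 2 ∨ x = sc 0
      · right
        rw [arc_apply]
        rcases h1 with rfl | rfl <;> simp [sc_eq]
      · left
        rw [not_or] at h1
        rw [arc_apply, if_neg h1.1, if_neg h1.2]
    rw [un_apply hd, arc_apply, arc_apply]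
    simp [sc_eq]
  rw [kk_empty (by decide), k1, k2, HS.ind_self, ce, ← te_one, sn11 (Or.inl rfl)]
  simp only [mul_zero, add_zero, zero_add, mul_one]
  congr 2
  show 1 * lg h - 1 * lg g = _
  ring

namespace PN0

theorem gk3 {q g a b : ℂ} (hG : NUTP.G NUTP.th [a, b, q, g]) :
    Gk (zc [] [] ![q, g, a, b, 1, 1]) [sc 2, sc 3, sc 0] := by
  have hG3 : NUTP.G NUTP.th [a, b, q] := hG.subl (by simp)
  exact Gk_can1 (K := []) (L := []) (v := ![q, g, a, b, 1, 1]) (A := [2, 3]) (by decide) hG3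

theorem three_gen {ι : Type*} [DecidableEq ι] {z : ι → ℂ} {a b q : ι} (hab : a ≠ b) (haq : a ≠ q)
    (hbq : b ≠ q) (hG : Gk z [a, b, q]) (F : EXL.Pat ι → ℂ) (h0 : F EXL.Pat.empty = 0) :
    UD (fun i => -1 * z i) [a, b, q] F =
      sin lam * (s3 (z q - z b) * s3 (z a - z q) * F (arc a b) +
        s3 (z b - z a) * s3 (z a - z q) * F (arc b q) +
        s3 (z b - z a) * s3 (z q - z b) * F (arc a q)) := by
  have G2 : Gz (fun i => -1 * z i) [a, b, q] := gz_eps (ε := 1) (Or.inl rfl) hG.gz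
  have h1 : sin (-1 * z b - -1 * z q) ≠ 0 := G2.s b (by simp) q (by simp) hbq
  have h2 : Fm.Dn (-1 * z q - -1 * z b) ≠ 0 := G2.d q (by simp) b (by simp) hbq.symm
  have e1 : -1 * z b - -1 * z q = z q - z b := by ring
  have e2 : -1 * z q - -1 * z a = z a - z q := by ring
  have e3 : -1 * z a - -1 * z b = z b - z a := by ring
  have key := UD_three (z := fun i => -1 * z i) hab haq hbq h1 h2 F h0
  simp only [e1, e2, e3] at key
  exact key

end PN0

open PN0 in
theorem fam_OE0 (q g : ℂ) : ∀ a b, NUTP.G NUTP.th [a, b, q, g] → (fam 1 0 q g).OE [] [] a b =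
      NUTP.sn NUTP.th 1 1 * (NUTP.sn NUTP.th 3 (b / a) * NUTP.sn NUTP.th 3 (q / b)) := by
  intro a b hG
  have ha : a ≠ 0 := hG.mem_ne0 (by simp)
  have hb : b ≠ 0 := hG.mem_ne0 (by simp)
  have hq : q ≠ 0 := hG.mem_ne0 (by simp)
  have e : (fam 1 0 q g).OE [] [] a b = WC 1 [] [] ![q, g, a, b, 1, 1] [2, 3] [] 2 0 := rfl
  have c1 : NUTP.sn NUTP.th 3 (b / a) = s3 (lg b - lg a) := by
    have := s3_sn (ε := 1) (Or.inl rfl) (lg b) (lg a)
    rw [te_one, one_mul] at this
    rw [← this]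
    congr 2
    · exact (exp_lg hb).symm
    · exact (exp_lg ha).symm
  have c2 : NUTP.sn NUTP.th 3 (q / b) = s3 (lg q - lg b) := by
    have := s3_sn (ε := 1) (Or.inl rfl) (lg q) (lg b)
    rw [te_one, one_mul] at this
    rw [← this]
    congr 2
    · exact (exp_lg hq).symm
    · exact (exp_lg hb).symm
  rw [e, WC_nil (by decide)]
  simp only [List.map_cons, List.map_nil, List.nil_append, List.cons_append, UD_one, ev0_apply,
    un_empty]
  have key := fun m (hm : m ≠ 0) => three_gen (z := zc [] [] ![q, g, a, b, 1, 1])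
    (a := sc 2) (b := sc 3) (q := sc 0)
    (fun e => absurd (sc_inj e) (by decide)) (fun e => absurd (sc_inj e) (by decide))
    (fun e => absurd (sc_inj e) (by decide)) (gk3 hG)
    (fun p => HS.ind (arc (sc m) (sc 0)) p) (kk_empty hm)
  rw [key _ (by decide),
    kk_arc (i := 2) (j := 3) (by rw [arc_apply]; simp [sc_eq]),
    kk_arc (i := 3) (j := 0) (by rw [arc_apply]; simp [sc_eq]), HS.ind_self, c1, c2, ← te_one,
    sn11 (Or.inl rfl)]
  simp only [mul_zero, zero_add, mul_one]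
  rfl

open PN0 in
theorem fam_EO0 (q g : ℂ) : ∀ a b, NUTP.G NUTP.th [a, b, q, g] → (fam 1 0 q g).EO [] [] a b =
      NUTP.sn NUTP.th 1 1 * (NUTP.sn NUTP.th 3 (b / a) * NUTP.sn NUTP.th 3 (a / q)) := by
  intro a b hG
  have ha : a ≠ 0 := hG.mem_ne0 (by simp)
  have hb : b ≠ 0 := hG.mem_ne0 (by simp)
  have hq : q ≠ 0 := hG.mem_ne0 (by simp)
  have e : (fam 1 0 q g).EO [] [] a b = WC 1 [] [] ![q, g, a, b, 1, 1] [2, 3] [] 3 0 := rfl
  have c1 : NUTP.sn NUTP.th 3 (b / a) = s3 (lg b - lg a) := by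
    have := s3_sn (ε := 1) (Or.inl rfl) (lg b) (lg a)
    rw [te_one, one_mul] at this
    rw [← this]
    congr 2
    · exact (exp_lg hb).symm
    · exact (exp_lg ha).symm
  have c2 : NUTP.sn NUTP.th 3 (a / q) = s3 (lg a - lg q) := by
    have := s3_sn (ε := 1) (Or.inl rfl) (lg a) (lg q)
    rw [te_one, one_mul] at this
    rw [← this]
    congr 2
    · exact (exp_lg ha).symm
    · exact (exp_lg hq).symm
  rw [e, WC_nil (by decide)]
  simp only [List.map_cons, List.map_nil, List.nil_append, List.cons_append, UD_one, ev0_apply,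
    un_empty]
  have key := fun m (hm : m ≠ 0) => three_gen (z := zc [] [] ![q, g, a, b, 1, 1])
    (a := sc 2) (b := sc 3) (q := sc 0)
    (fun e => absurd (sc_inj e) (by decide)) (fun e => absurd (sc_inj e) (by decide))
    (fun e => absurd (sc_inj e) (by decide)) (gk3 hG)
    (fun p => HS.ind (arc (sc m) (sc 0)) p) (kk_empty hm)
  rw [key _ (by decide),
    kk_arc (i := 2) (j := 3) (by rw [arc_apply]; simp [sc_eq]),
    kk_arc (i := 2) (j := 0) (by rw [arc_apply]; simp [sc_eq]), HS.ind_self, c1, c2, ← te_one,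
    sn11 (Or.inl rfl)]
  simp only [mul_zero, zero_add, add_zero, mul_one]
  rfl

end Pool.Agent.NUTV
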