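import Pool.Agent.NUU.DiscFuse

/-!
# One line of the disc functional: nodes, zero, fusion (helper70)

The line `p` stands between the lines `A` (below) and `B` (above).  `Bf z p X F s` = the functional with `p` at the
bottom and the rapidity `s`; it is entire in `s`, for generic `s` it is the functional of `A ++ p :: B`
(`X = B ++ A`), and it has the values `node_up`, `node_lo`, `fuse_up` at the special points.
-/

set_option autoImplicit false

namespace Pool.Agent.NUTV

open _root_.Pool.Agent.EXL _root_.Pool.Agent.EXL.Pat Filter Topology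
open _root_.Pool.Agent.EXL.Fm (lam)
open _root_.Pool.Agent.NUF _root_.Pool.Agent.NUU
open Complex (I exp sin cos)

variable {α : Type*} [DecidableEq α] {z z' : α → ℂ} {X Y A B : List α} {p q b c x y : α}

/-- **Rotation** (proved in `NUU/Rot`). -/
class HasRot (α : Type*) [DecidableEq α] : Prop where
  rot : ∀ (z : α → ℂ) (A B : List α) (b c : α), (A ++ B).Nodup → b ∉ A ++ B → c ∉ A ++ B →
    b ≠ c → Gz z (A ++ B) → UD z (A ++ B) = UD z (B ++ A)

/-- Generic rapidities: no two differ by a multiple of `λ`. -/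
def Gk (z : α → ℂ) (X : List α) : Prop :=
  ∀ i ∈ X, ∀ j ∈ X, i ≠ j → ∀ k : ℤ, sin (z i - z j + k * lam) ≠ 0

omit [DecidableEq α] in
theorem Gk.gz (h : Gk z X) : Gz z X where
  s i hi j hj hij := by
    have := h i hi j hj hij 0
    simpa using this
  d i hi j hj hij := by
    unfold Fm.Dn
    refine mul_ne_zero ?_ ?_
    · have := h i hi j hj hij 2
      rwa [add_comm] at this
    · have := h i hi j hj hij 3
      rwa [add_comm] at this

omit [DecidableEq α] in
theorem Gk.sub (h : Gk z X) (hp : ∀ x ∈ Y, x ∈ X) : Gk z Y :=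
  fun i hi j hj hij k => h i (hp i hi) j (hp j hj) hij k

omit [DecidableEq α] in
theorem Gk.congr (h : Gk z X) (e : ∀ x ∈ X, z x = z' x) : Gk z' X := by
  intro i hi j hj hij k
  rw [← e i hi, ← e j hj]
  exact h i hi j hj hij k

/-! ### Analyticity -/

omit [DecidableEq α] in
theorem dt_pd {zs : ℂ → α → ℂ} {t : ℂ} {p i k : α} (hp : DifferentiableAt ℂ (fun s => zs s p) t)
    (hi : DifferentiableAt ℂ (fun s => zs s i) t) (hk : DifferentiableAt ℂ (fun s => zs s k) t)
    (h : sin (zs t i - zs t k) ≠ 0) : DifferentiableAt ℂ (fun s => pd (zs s) p i k) t := by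
  unfold pd s3 Fm.Dn
  exact DifferentiableAt.div (by fun_prop) (by fun_prop) h

theorem UD_dt [Finite α] {zs : ℂ → α → ℂ} {t : ℂ} (hn : X.Nodup)
    (hz : ∀ x ∈ X, DifferentiableAt ℂ (fun s => zs s x) t) (hG : Gz (zs t) X) :
    DtF (fun s => UD (zs s) X) t := by
  have hx : ∀ x ∈ X.toFinset, DifferentiableAt ℂ (fun s => zs s x) t := fun x hx =>
    hz x (List.mem_toFinset.1 hx)
  have hpd : ∀ p ∈ X.toFinset, ∀ i ∈ X.toFinset, ∀ Y ⊆ X.toFinset, i ∉ Y →
      DifferentiableAt ℂ (fun s => ∏ k ∈ Y, pd (zs s) p i k) t := by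
    intro p hp i hi Y hY hiY
    refine DifferentiableAt.fun_finsetProd fun k hk => dt_pd (hx p hp) (hx i hi) (hx k (hY hk)) ?_
    exact hG.s i (List.mem_toFinset.1 hi) k (List.mem_toFinset.1 (hY hk)) fun e => hiY (e ▸ hk)
  refine RL_dt X.toFinset (fun p hp Y hY _ => ?_) ?_ ?_ X.length X rfl hn
    fun x hx => List.mem_toFinset.2 hx
  · simp only [cD]
    refine DifferentiableAt.fun_finsetProd fun k hk => ?_
    have h1 := hx p hp
    have h2 := hx k (hY hk)
    unfold s3
    fun_prop
  · intro p hp i hi Y hY _ _ hiY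
    have h0 := hpd p hp i hi Y hY hiY
    have h1 := hx p hp
    have h2 := hx i hi
    simp only [cD]
    exact ⟨DifferentiableAt.mul (by fun_prop) h0, h0.const_mul _⟩
  · intro i hi r hr hir
    have hi' := List.mem_toFinset.1 hi
    have hr' := List.mem_toFinset.1 hr
    exact dt_R hir ((hz i hi').sub (hz r hr')) (hG.d i hi' r hr' hir)

/-- The bottom line has no poles. -/
theorem UD_dt1 [Finite α] {zs : ℂ → α → ℂ} {t : ℂ} (hn : X.Nodup)
    (hp : DifferentiableAt ℂ (fun s => zs s p) t)
    (hz : ∀ x ∈ X, DifferentiableAt ℂ (fun s => zs s x) t) (hG : Gz (zs t) X) :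
    DtF (fun s => UD (zs s) (p :: X)) t := by
  have hx : ∀ x ∈ X.toFinset, DifferentiableAt ℂ (fun s => zs s x) t := fun x hx =>
    hz x (List.mem_toFinset.1 hx)
  simp only [UD_cons]
  refine (DtF.smul ?_ (UD_dt hn hz hG)).add (DtF.sum _ fun i hi => ?_)
  · refine DifferentiableAt.fun_finsetProd fun k hk => ?_
    have h2 := hx k hk
    unfold s3
    fun_prop
  have hi' := List.mem_toFinset.1 hi
  have hpd : DifferentiableAt ℂ (fun s => ∏ k ∈ X.toFinset.erase i, pd (zs s) p i k) t := by
    refine DifferentiableAt.fun_finsetProd fun k hk => ?_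
    have hk' := Finset.mem_erase.1 hk
    exact dt_pd hp (hx i hi) (hx k hk'.2)
      (hG.s i hi' k (List.mem_toFinset.1 hk'.2) hk'.1.symm)
  have h2 := hx i hi
  refine DtF.comp (UD_dt (hn.erase i) (fun x hx => hz x (List.mem_of_mem_erase hx))
    (hG.sub fun x hx => List.mem_of_mem_erase hx)) (DtE.mul (dt_jn
      (DifferentiableAt.mul (by fun_prop) hpd) (hpd.const_mul _)) ?_)
  unfold oE
  refine dt_M fun r hr => ?_
  obtain ⟨k1, k2⟩ := below_subset r hr
  exact dt_R k2.symm ((hz i hi').sub (hz r k1)) (hG.d i hi' r k1 k2.symm)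

/-! ### One line -/

/-- The functional with the line `p` at the bottom, its rapidity is `s`. -/
noncomputable def Bf (z : α → ℂ) (p : α) (X : List α) (F : Pat α → ℂ) (s : ℂ) : ℂ :=
  UD (Function.update z p s) (p :: X) F

theorem upd_same_diff (z : α → ℂ) (p x : α) (t : ℂ) :
    DifferentiableAt ℂ (fun s => Function.update z p s x) t := by
  by_cases h : x = p
  · subst h
    simp only [Function.update_self]
    fun_prop
  · simp only [Function.update_of_ne h]
    fun_prop

theorem upd_out {s : ℂ} (h : p ∉ X) : ∀ x ∈ X, z x = Function.update z p s x := fun x hx => by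
  rw [Function.update_of_ne fun e => h (by rwa [e] at hx)]

theorem Bf_diff [Finite α] (hn : (p :: X).Nodup) (hG : Gz z X) (F : Pat α → ℂ) :
    Differentiable ℂ (Bf z p X F) := by
  intro t
  have h := List.nodup_cons.1 hn
  exact UD_dt1 h.2 (upd_same_diff z p p t) (fun x _ => upd_same_diff z p x t)
    (hG.congr (upd_out h.1)) F

/-- The upper node. -/
theorem node_up [Finite α] (hn : (p :: y :: Y).Nodup) (hb : b ∉ Y) (hc : c ∉ Y) (hbc : b ≠ c)
    (hG : Gz z (y :: Y)) (F : Pat α → ℂ) : Bf z p (y :: Y) F (z y - 3 * lam) =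
      Fr.c3 * (∏ k ∈ Y.toFinset, Fm.Dn (z y - z k)) * UD z Y (uops.U p y F) := by
  have h1 := List.nodup_cons.1 hn
  have hpY : p ∉ Y := fun e => h1.1 (by simp [e])
  have hyp : y ≠ p := fun e => h1.1 (by simp [e])
  unfold Bf
  rw [UD_cross hn hb hc hbc (hG.congr (upd_out h1.1)), LinearMap.smul_apply, smul_eq_mul,
    LinearMap.comp_apply, Function.update_of_ne hyp, ← UD_congr (upd_out hpY)]
  · congr 2
    refine Finset.prod_congr rfl fun k hk => ?_
    rw [Function.update_of_ne fun e => hpY (by rw [← e]; exact List.mem_toFinset.1 hk)]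
  · rw [Function.update_self, Function.update_of_ne hyp]

/-! ### Generic points near a point -/

theorem ev_sin' (a s0 : ℂ) {c : ℂ} (hc : c ≠ 0) : ∀ᶠ s in 𝓝[≠] s0, sin (c * s + a) ≠ 0 := by
  by_cases h : sin (c * s0 + a) = 0
  · have hc' : cos (c * s0 + a) ≠ 0 := by
      intro h'
      have := Complex.sin_sq_add_cos_sq (c * s0 + a)
      rw [h, h'] at this
      norm_num at this
    have hd : HasDerivAt (fun s : ℂ => sin (c * s + a)) (cos (c * s0 + a) * (c * 1)) s0 :=
      (((hasDerivAt_id s0).const_mul c).add_const a).csin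
    refine hd.eventually_ne ?_
    rw [mul_one]
    exact mul_ne_zero hc' hc
  · have hc : ContinuousAt (fun s : ℂ => sin (c * s + a)) s0 := by fun_prop
    exact eventually_nhdsWithin_of_eventually_nhds (hc.eventually_ne h)

theorem ev_gz (hp : p ∉ X) (hG : Gz z X) (s0 : ℂ) :
    ∀ᶠ s in 𝓝[≠] s0, Gz (Function.update z p s) (p :: X) := by
  have h1 : ∀ k ∈ X, ∀ᶠ s in 𝓝[≠] s0, (sin (s - z k) ≠ 0 ∧ sin (z k - s) ≠ 0) ∧
      (Fm.Dn (s - z k) ≠ 0 ∧ Fm.Dn (z k - s) ≠ 0) := by
    intro k _
    filter_upwards [ev_sin' (-z k) s0 one_ne_zero, ev_sin' (z k) s0 (neg_ne_zero.2 one_ne_zero),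
      ev_sin' (2 * lam - z k) s0 one_ne_zero, ev_sin' (3 * lam - z k) s0 one_ne_zero,
      ev_sin' (2 * lam + z k) s0 (neg_ne_zero.2 one_ne_zero),
      ev_sin' (3 * lam + z k) s0 (neg_ne_zero.2 one_ne_zero)] with s a1 a2 a3 a4 a5 a6
    unfold Fm.Dn
    refine ⟨⟨?_, ?_⟩, mul_ne_zero ?_ ?_, mul_ne_zero ?_ ?_⟩
    · convert a1 using 2
      ring
    · convert a2 using 2
      ring
    · convert a3 using 2
      ring
    · convert a4 using 2
      ring
    · convert a5 using 2
      ring
    · convert a6 using 2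
      ring
  have h2 : ∀ᶠ s in 𝓝[≠] s0, ∀ k ∈ X.toFinset, (sin (s - z k) ≠ 0 ∧ sin (z k - s) ≠ 0) ∧
      (Fm.Dn (s - z k) ≠ 0 ∧ Fm.Dn (z k - s) ≠ 0) := by
    rw [Finset.eventually_all]
    exact fun k hk => h1 k (List.mem_toFinset.1 hk)
  filter_upwards [h2] with s hs
  have e : ∀ k ∈ X, Function.update z p s k = z k := fun k hk => (upd_out hp k hk).symm
  have hs' := fun k hk => hs k (List.mem_toFinset.2 hk)
  constructor
  · intro i hi j hj hij
    rcases List.mem_cons.1 hi with h | h
    · rcases List.mem_cons.1 hj with h' | h'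
      · exact absurd (h.trans h'.symm) hij
      · rw [h, Function.update_self, e j h']
        exact (hs' j h').1.1
    · rcases List.mem_cons.1 hj with h' | h'
      · rw [h', Function.update_self, e i h]
        exact (hs' i h).1.2
      · rw [e i h, e j h']
        exact hG.s i h j h' hij
  · intro i hi j hj hij
    rcases List.mem_cons.1 hi with h | h
    · rcases List.mem_cons.1 hj with h' | h'
      · exact absurd (h.trans h'.symm) hij
      · rw [h, Function.update_self, e j h']
        exact (hs' j h').2.1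
    · rcases List.mem_cons.1 hj with h' | h'
      · rw [h', Function.update_self, e i h]
        exact (hs' i h).2.2
      · rw [e i h, e j h']
        exact hG.d i h j h' hij

/-- The lower node. -/
theorem node_lo [Finite α] [HasRot α] (hn : (x :: p :: Y).Nodup) (hb : b ∉ x :: p :: Y) (hc : c ∉ x :: p :: Y)
    (hbc : b ≠ c) (hG : Gk z (x :: Y)) (F : Pat α → ℂ) : Bf z p (Y ++ [x]) F (z x + 3 * lam) =
      Fr.c3 * (∏ k ∈ Y.toFinset, Fm.Dn (z x + 3 * lam - z k)) * UD z Y (uops.U x p F) := by
  have h1 := List.nodup_cons.1 hn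
  have h2 := List.nodup_cons.1 h1.2
  have hxY : x ∉ Y := fun e => h1.1 (by simp [e])
  have hxp : x ≠ p := fun e => h1.1 (by simp [e])
  have hpX : p ∉ x :: Y := by
    simp only [List.mem_cons, not_or]
    exact ⟨hxp.symm, h2.1⟩
  set s0 := z x + 3 * lam with hs0
  have hnX : (p :: (Y ++ [x])).Nodup := by
    have hp : (x :: p :: Y).Perm (p :: (Y ++ [x])) :=
      (List.Perm.swap p x Y).trans (List.Perm.cons p (List.perm_append_singleton x Y).symm)
    exact hp.nodup_iff.1 hn
  have hGY : Gk z (Y ++ [x]) := hG.sub fun k hk => by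
    simp only [List.mem_append, List.mem_singleton] at hk
    simp only [List.mem_cons]
    tauto
  -- the genericity of the special point
  have hGp : Gz (Function.update z p s0) (p :: Y) := by
    have e : ∀ k ∈ Y, Function.update z p s0 k = z k := fun k hk => (upd_out h2.1 k hk).symm
    have key : ∀ k ∈ Y, ∀ m : ℤ, sin (s0 - z k + m * lam) ≠ 0 := by
      intro k hk m
      have := hG x (by simp) k (by simp [hk]) (fun e => hxY (by rwa [e])) (m + 3)
      rw [hs0]
      convert this using 2
      push_cast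
      ring
    have key' : ∀ k ∈ Y, ∀ m : ℤ, sin (z k - s0 + m * lam) ≠ 0 := by
      intro k hk m h
      apply key k hk (-m)
      rw [show s0 - z k + ((-m : ℤ) : ℂ) * lam = -(z k - s0 + m * lam) by push_cast; ring,
        Complex.sin_neg, h, neg_zero]
    have hk : Gk (Function.update z p s0) (p :: Y) := by
      intro i hi j hj hij m
      rcases List.mem_cons.1 hi with h | h
      · rcases List.mem_cons.1 hj with h' | h'
        · exact absurd (h.trans h'.symm) hij
        · rw [h, Function.update_self, e j h']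
          exact key j h' m
      · rcases List.mem_cons.1 hj with h' | h'
        · rw [h', Function.update_self, e i h]
          exact key' i h m
        · rw [e i h, e j h']
          exact hG i (by simp [h]) j (by simp [h']) hij m
    exact hk.gz
  have hf : ContinuousAt (Bf z p (Y ++ [x]) F) s0 := (Bf_diff hnX hGY.gz F s0).continuousAt
  have hg : ContinuousAt (fun s => UD (Function.update z p s) (x :: p :: Y) F) s0 :=
    (UD_dt1 (h1.2) (upd_same_diff z p x s0) (fun k _ => upd_same_diff z p k s0) hGp F).continuousAt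
  have hev : ∀ᶠ s in 𝓝[≠] s0, Bf z p (Y ++ [x]) F s =
      UD (Function.update z p s) (x :: p :: Y) F := by
    filter_upwards [ev_gz hpX hG.gz s0] with s hs
    unfold Bf
    have hperm : (p :: x :: Y).Perm (x :: p :: Y) := List.Perm.swap x p Y
    have := HasRot.rot _ [x] (p :: Y) b c hn hb hc hbc (hs.perm hperm)
    exact (LinearMap.congr_fun this F).symm
  have h3 := tendsto_nhds_unique_of_eventuallyEq (hf.mono_left nhdsWithin_le_nhds)
    (hg.mono_left nhdsWithin_le_nhds) hev
  rw [h3]
  show UD (Function.update z p s0) (x :: p :: Y) F = _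
  have hbY : b ∉ Y := fun e => hb (by simp [e])
  have hcY : c ∉ Y := fun e => hc (by simp [e])
  rw [UD_cross hn hbY hcY hbc hGp, LinearMap.smul_apply, smul_eq_mul, LinearMap.comp_apply,
    Function.update_self, ← UD_congr (upd_out h2.1)]
  · congr 2
    refine Finset.prod_congr rfl fun k hk => ?_
    rw [Function.update_of_ne fun e => h2.1 (by rw [← e]; exact List.mem_toFinset.1 hk)]
  · rw [Function.update_of_ne hxp, Function.update_self, hs0]
    ring

/-- For generic rapidities the line may stand anywhere. -/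
theorem Bf_gen [HasRot α] {s : ℂ} (hn : (A ++ p :: B).Nodup) (hb : b ∉ A ++ p :: B)
    (hc : c ∉ A ++ p :: B) (hbc : b ≠ c) (hG : Gz (Function.update z p s) (A ++ p :: B))
    (F : Pat α → ℂ) : Bf z p (B ++ A) F s = UD (Function.update z p s) (A ++ p :: B) F := by
  unfold Bf
  have := HasRot.rot _ A (p :: B) b c hn hb hc hbc hG
  exact (LinearMap.congr_fun this F).symm

/-- The fusion point. -/
theorem fuse_up [Finite α] (hn : (p :: y :: Y).Nodup) (hb : b ∉ p :: y :: Y) (hc : c ∉ p :: y :: Y)
    (hbc : b ≠ c) (hG : Gk z (y :: Y)) (F : Pat α → ℂ) : Bf z p (y :: Y) F (z y - 2 * lam) =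
      Fr.s2 * (∏ k ∈ Y.toFinset, cos (z y - lam - z k)) *
        UD (Function.update z y (z y - lam)) (y :: Y) (uops.Y y p F) := by
  have h1 := List.nodup_cons.1 hn
  have h2 := List.nodup_cons.1 h1.2
  have hpY : p ∉ Y := fun e => h1.1 (by simp [e])
  have hyp : y ≠ p := fun e => h1.1 (by simp [e])
  set s0 := z y - 2 * lam with hs0
  have e : ∀ k ∈ Y, Function.update z p s0 k = z k := fun k hk => (upd_out hpY k hk).symm
  have e' : ∀ k ∈ Y, Function.update z y (z y - lam) k = z k := fun k hk =>
    (upd_out h2.1 k hk).symm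
  have hGp : Gk (Function.update z p s0) (p :: Y) := by
    have key : ∀ k ∈ Y, ∀ m : ℤ, sin (s0 - z k + m * lam) ≠ 0 := by
      intro k hk m
      have := hG y (by simp) k (by simp [hk]) (fun e => h2.1 (by rwa [e])) (m - 2)
      rw [hs0]
      convert this using 2
      push_cast
      ring
    have key' : ∀ k ∈ Y, ∀ m : ℤ, sin (z k - s0 + m * lam) ≠ 0 := by
      intro k hk m h
      apply key k hk (-m)
      rw [show s0 - z k + ((-m : ℤ) : ℂ) * lam = -(z k - s0 + m * lam) by push_cast; ring,
        Complex.sin_neg, h, neg_zero]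
    intro i hi j hj hij m
    rcases List.mem_cons.1 hi with h | h
    · rcases List.mem_cons.1 hj with h' | h'
      · exact absurd (h.trans h'.symm) hij
      · rw [h, Function.update_self, e j h']
        exact key j h' m
    · rcases List.mem_cons.1 hj with h' | h'
      · rw [h', Function.update_self, e i h]
        exact key' i h m
      · rw [e i h, e j h']
        exact hG i (by simp [h]) j (by simp [h']) hij m
  unfold Bf
  rw [UD_fuse (z' := Function.update z y (z y - lam)) hn hb hc hbc ?_ ?_ ?_
    (hG.gz.congr (upd_out h1.1)) hGp.gz, LinearMap.smul_apply, smul_eq_mul, LinearMap.comp_apply,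
    Function.update_self]
  · congr 2
    exact Finset.prod_congr rfl fun k hk => by rw [e k (List.mem_toFinset.1 hk)]
  · rw [Function.update_self, Function.update_of_ne hyp]
  · rw [Function.update_self, Function.update_of_ne hyp]
  · intro k hk
    rw [e k hk, e' k hk]

end Pool.Agent.NUTV
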