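import Pool.Agent.NUU.Rot4
import Pool.Agent.NUTV.Vec

/-!
# Rotation on every finite label type (helper72)

The hypothesis `HasRot` of the fields holds on every finite label type.
-/

set_option autoImplicit false

namespace Pool.Agent.NUTV

instance instHasRot {α : Type*} [DecidableEq α] [Finite α] : HasRot α where
  rot _ _ _ _ _ hn _ _ _ hG := NUU.UD_rot hn hG

end Pool.Agent.NUTV
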