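import Pool.Agent.NUTV.Line
import Pool.Agent.NUTP.Bridge

/-!
# The two sides at once: `te ε = e ^ (i ε λ)`, `ε = 1` or `ε = -1` (helper70)
-/

set_option autoImplicit false

namespace Pool.Agent.NUTV

open _root_.Pool.Agent.EXL.Fm (lam Dn)

open NUTP (ea th sn sk cs G)
open Complex (I exp sin cos)

variable {ε : ℂ}

/-- `e ^ (i ε λ)` -/
noncomputable def te (ε : ℂ) : ℂ := ea (ε * lam)

theorem lam_eq : NUTP.lam = lam := by
  unfold NUTP.lam EXL.Fm.lam
  push_cast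
  ring

theorem te_one : te 1 = th := by
  unfold te th
  rw [one_mul, lam_eq]

theorem te_neg : te (-1) = th⁻¹ := by
  unfold te th
  rw [← NUTP.ea_neg, neg_one_mul, lam_eq]

theorem te_ne (ε : ℂ) : te ε ≠ 0 := NUTP.ea_ne _

theorem te8 (hε : Sg ε) : te ε ^ 8 = -1 := by
  rcases hε with rfl | rfl
  · rw [te_one, NUTP.th8]
  · rw [te_neg, inv_pow, NUTP.th8]
    norm_num

theorem te_sn (hε : Sg ε) (k : ℕ) (z : ℂ) : sn (te ε) k (ea z) = sin (ε * z + k * lam) := by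
  rcases hε with rfl | rfl
  · rw [te_one, NUTP.sn_ea, one_mul, lam_eq]
  · rw [te_neg, NUTP.sn_inv NUTP.th8, ← NUTP.ea_neg, NUTP.sn_ea, neg_one_mul, lam_eq]

theorem te_sn_div (hε : Sg ε) (k : ℕ) (z w : ℂ) :
    sn (te ε) k (ea z / ea w) = sin (ε * (z - w) + k * lam) := by
  rw [← NUTP.ea_sub, te_sn hε]

theorem te_sn_one (hε : Sg ε) (k : ℕ) : sn (te ε) k 1 = sin (k * lam) := by
  rw [← NUTP.ea_zero, te_sn hε, mul_zero, zero_add]

theorem te_sk (hε : Sg ε) (z w : ℂ) : sk (te ε) (ea z / ea w) = Dn (ε * (z - w)) := by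
  unfold NUTP.sk EXL.Fm.Dn
  rw [te_sn_div hε, te_sn_div hε]
  push_cast
  rw [add_comm (2 * lam), add_comm (3 * lam)]

/-- `Dn (3 λ - u) = Dn u` -/
theorem Dn_three (u : ℂ) : Dn (3 * lam - u) = Dn u := by
  unfold EXL.Fm.Dn
  have h8 : (8 : ℂ) * lam = Real.pi := by
    unfold EXL.Fm.lam
    ring
  rw [show 2 * lam + (3 * lam - u) = Real.pi - (3 * lam + u) by rw [← h8]; ring,
    show 3 * lam + (3 * lam - u) = Real.pi - (2 * lam + u) by rw [← h8]; ring,
    Complex.sin_pi_sub, Complex.sin_pi_sub, mul_comm]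

/-- the factor of the lower node -/
theorem te_sk_lo (hε : Sg ε) (x k : ℂ) : Dn (-ε * (x - k) + 3 * lam) = sk (te ε) (ea x / ea k) := by
  rw [te_sk hε, show -ε * (x - k) + 3 * lam = 3 * lam - ε * (x - k) by ring, Dn_three]

/-- the factor of the upper node -/
theorem te_sk_up (hε : Sg ε) (y k : ℂ) : Dn (-ε * (y - k)) = sk (te ε) (ea k / ea y) := by
  rw [te_sk hε]
  congr 1
  ring

theorem te_s1 (hε : Sg ε) : sn (te ε) 1 1 = NUF.Fr.c3 := by
  rw [te_sn_one hε]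
  unfold NUF.Fr.c3
  rw [← Complex.sin_pi_div_two_sub]
  congr 1
  unfold EXL.Fm.lam
  push_cast
  ring

theorem te_s2 (hε : Sg ε) : sn (te ε) 2 1 = sin (2 * lam) := by
  rw [te_sn_one hε]
  push_cast
  rfl

theorem cos_lam_ne : cos lam ≠ 0 := by
  have h : cos lam = ((Real.cos (Real.pi / 8) : ℝ) : ℂ) := by
    unfold EXL.Fm.lam
    push_cast
    rfl
  rw [h]
  have : 0 < Real.cos (Real.pi / 8) := Real.cos_pos_of_mem_Ioo
    ⟨by linarith [Real.pi_pos], by linarith [Real.pi_pos]⟩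
  exact_mod_cast this.ne'

/-- `sin 2λ` times the weight of the vertex -/
theorem s2_xh : NUF.Fr.s2 * EXL.xh = NUF.Fr.c3 := by
  unfold NUF.Fr.s2 EXL.xh
  rw [show NUF.Fr.c3 = sin lam by
    rw [← te_s1 (Or.inl rfl : Sg 1), te_sn_one (Or.inl rfl)]
    push_cast
    rw [one_mul]]
  rw [Complex.sin_two_mul]
  have h : cos ((Real.pi : ℂ) / 8) = cos lam := rfl
  rw [h]
  have := cos_lam_ne
  field_simp

/-! ### Shifts -/

theorem te_pow (k : ℕ) : te ε ^ k = ea (k * (ε * lam)) := by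
  unfold te
  rw [NUTP.ea_nat]

theorem te_shift (k : ℕ) (z : ℂ) : te ε ^ k * ea z = ea (z + k * ε * lam) := by
  unfold te
  rw [← NUTP.ea_nat, ← NUTP.ea_add]
  congr 1
  ring

theorem te13 (hε : Sg ε) (z : ℂ) : te ε ^ 13 * ea z = ea (z - 3 * ε * lam) := by
  have h16 : te ε ^ 16 = 1 := by
    rw [show (16 : ℕ) = 8 * 2 from rfl, pow_mul, te8 hε]
    norm_num
  have h3 : te ε ^ 3 * ea (z - 3 * ε * lam) = ea z := by
    rw [te_shift]
    congr 1
    push_cast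
    ring
  rw [← h3, ← mul_assoc, ← pow_add, h16, one_mul]

theorem te3 (z : ℂ) : te ε ^ 3 * ea z = ea (z + 3 * ε * lam) := by
  rw [te_shift]
  push_cast
  rfl

theorem te2 (z : ℂ) : te ε ^ 2 * ea z = ea (z + 2 * ε * lam) := by
  rw [te_shift]
  push_cast
  rfl

theorem te1 (z : ℂ) : te ε * ea z = ea (z + ε * lam) := by
  have := te_shift (ε := ε) 1 z
  rw [pow_one] at this
  rw [this]
  push_cast
  congr 1
  ring

theorem te10_sq (hε : Sg ε) (z : ℂ) : te ε ^ 10 * ea z ^ 2 = ea (z - 3 * ε * lam) ^ 2 := by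
  have h16 : te ε ^ 16 = 1 := by
    rw [show (16 : ℕ) = 8 * 2 from rfl, pow_mul, te8 hε]
    norm_num
  rw [← te13 hε]
  linear_combination (-(te ε ^ 10 * ea z ^ 2)) * h16

theorem te6_sq (z : ℂ) : te ε ^ 6 * ea z ^ 2 = ea (z + 3 * ε * lam) ^ 2 := by
  rw [← te3]
  ring

theorem te4_sq (z : ℂ) : te ε ^ 4 * ea z ^ 2 = ea (z + 2 * ε * lam) ^ 2 := by
  rw [← te2]
  ring

theorem te_cs (z w : ℂ) : cs (te ε * ea z / ea w) = cos (z + ε * lam - w) := by
  rw [te1, NUTP.cs_div]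

/-! ### Genericity -/

theorem sep_inv {v a b : ℂ} (hv : v ^ 8 = 1) (h : NUGas.Sep v a b) : NUGas.Sep v⁻¹ a b := by
  intro k hk
  have h0 : v ≠ 0 := by
    rintro rfl
    norm_num at hv
  apply h (7 * k)
  have e : v⁻¹ = v ^ 7 := by
    rw [inv_eq_of_mul_eq_one_right]
    rw [← pow_succ']
    exact hv
  rw [e, ← pow_mul] at hk
  exact hk

theorem te_G (hε : Sg ε) {S : List ℂ} (h : G th S) : G (te ε) S := by
  rcases hε with rfl | rfl
  · rwa [te_one]
  · rw [te_neg]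
    refine ⟨h.1, ?_⟩
    refine h.2.imp fun {a b} hab => ?_
    rw [inv_pow]
    refine sep_inv ?_ hab
    rw [← pow_mul, show 2 * 8 = 8 * 2 from rfl, pow_mul, NUTP.th8]
    norm_num

theorem of_te_G (hε : Sg ε) {S : List ℂ} (h : G (te ε) S) : G th S := by
  rcases hε with rfl | rfl
  · rwa [te_one] at h
  · rw [te_neg] at h
    refine ⟨h.1, ?_⟩
    refine h.2.imp fun {a b} hab => ?_
    rw [inv_pow] at hab
    have := sep_inv (v := (th ^ 2)⁻¹) ?_ hab
    · rwa [inv_inv] at this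
    · rw [inv_pow, ← pow_mul, show 2 * 8 = 8 * 2 from rfl, pow_mul, NUTP.th8]
      norm_num

end Pool.Agent.NUTV
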