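import Pool.Agent.NUTV.BrE

/-!
# Dictionary between the sites and the lists of `NUTP.Data` (helper83)

`EL z X` = the lines of the sites `X`.  The node factors, the top and bottom coefficients as products over the
sites of `Line.lean`; the lists of the canonical sites.
-/

set_option autoImplicit false

namespace Pool.Agent.NUTV

open _root_.Pool.Agent.EXL _root_.Pool.Agent.EXL.Pat Filter Topology Polynomial
open _root_.Pool.Agent.EXL.Fm (lam)
open _root_.Pool.Agent.NUU _root_.Pool.Agent.NUT2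
open Complex (I exp sin cos)

variable {ε : ℂ}

/-! ### Points, written with `exp (I * z)` -/

theorem pt_dn (hε : Sg ε) (z : ℂ) :
    exp (I * (z - 3 * ε * lam)) = te ε ^ 13 * exp (I * z) := (te13 hε z).symm

theorem pt_up (ε z : ℂ) : exp (I * (z + 3 * ε * lam)) = te ε ^ 3 * exp (I * z) := (te3 z).symm

theorem pt_fs (ε z : ℂ) : exp (I * (z + 2 * ε * lam)) = te ε ^ 2 * exp (I * z) := (te2 z).symm

theorem pt_1 (ε z : ℂ) : exp (I * (z + ε * lam)) = te ε * exp (I * z) := (te1 z).symm

theorem pt_dn2 (hε : Sg ε) (z : ℂ) :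
    exp (I * (z - 3 * ε * lam)) ^ 2 = te ε ^ 10 * exp (I * z) ^ 2 := (te10_sq hε z).symm

theorem pt_up2 (ε z : ℂ) : exp (I * (z + 3 * ε * lam)) ^ 2 = te ε ^ 6 * exp (I * z) ^ 2 :=
  (te6_sq z).symm

theorem pt_fs2 (ε z : ℂ) : exp (I * (z + 2 * ε * lam)) ^ 2 = te ε ^ 4 * exp (I * z) ^ 2 :=
  (te4_sq z).symm

/-! ### Products over the lines of a side -/

section prod

variable {ι : Type*} [DecidableEq ι] {z : ι → ℂ} {X Y : List ι} {x y : ι} {S S' : List ℂ} {θ : ℂ}
  {n : ℕ}

/-- the lines of the sites `X` -/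
noncomputable def EL (z : ι → ℂ) (X : List ι) : List ℂ := X.map fun i => exp (I * z i)

omit [DecidableEq ι] in
theorem EL_len : (EL z X).length = X.length := List.length_map _

theorem prod_EL (f : ℂ → ℂ) (hX : X.Nodup) :
    ((EL z X).map f).prod = ∏ k ∈ X.toFinset, f (exp (I * z k)) := by
  unfold EL
  rw [List.map_map, ← List.prod_toFinset _ hX]
  rfl

/-- the top coefficient -/
theorem tp_eq (hX : X.Nodup) (hS : (EL z X).Perm S) :
    NUTP.tp S = ∏ k ∈ X.toFinset, (2 * exp (I * z k))⁻¹ := by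
  unfold NUTP.tp
  rw [← (hS.map _).prod_eq, prod_EL _ hX]

/-- the bottom coefficient -/
theorem bt_eq (hX : X.Nodup) (hS : (EL z X).Perm S) :
    NUTP.bt S = ∏ k ∈ X.toFinset, exp (I * z k) / 2 := by
  unfold NUTP.bt
  rw [← (hS.map _).prod_eq, prod_EL _ hX]

/-- the upper node -/
theorem up_eq (hε : Sg ε) (hY : Y.Nodup) (hS : (EL z Y).Perm S) (n : ℕ) :
    NUTP.up (te ε) n (exp (I * z y)) S = exp (I * (z y + 3 * ε * lam)) ^ n *
      (NUF.Fr.c3 * ∏ k ∈ Y.toFinset, Fm.Dn (-ε * (z y - z k))) := by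
  unfold NUTP.up
  rw [← (hS.map _).prod_eq, prod_EL _ hY, te_s1 hε, pt_up]
  congr 2
  exact Finset.prod_congr rfl fun k _ => (te_sk_up hε _ _).symm

/-- the lower node -/
theorem dn_eq (hε : Sg ε) (hY : Y.Nodup) (hS : (EL z Y).Perm S) (n : ℕ) :
    NUTP.dn (te ε) n (exp (I * z x)) S = exp (I * (z x - 3 * ε * lam)) ^ n *
      (NUF.Fr.c3 * ∏ k ∈ Y.toFinset, Fm.Dn (-ε * (z x - z k) + 3 * lam)) := by
  unfold NUTP.dn
  rw [← (hS.map _).prod_eq, prod_EL _ hY, te_s1 hε, pt_dn hε]
  congr 2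
  exact Finset.prod_congr rfl fun k _ => (te_sk_lo hε _ _).symm

/-- the fusion point -/
theorem fs_eq (hε : Sg ε) (hY : Y.Nodup) (hS : (EL z Y).Perm S) :
    NUTP.sn (te ε) 1 1 * (S.map fun c => NUTP.cs (te ε * exp (I * z y) / c)).prod =
      NUF.Fr.s2 * (∏ k ∈ Y.toFinset, cos (z y + ε * lam - z k)) * xh := by
  rw [← (hS.map _).prod_eq, prod_EL _ hY, te_s1 hε, ← s2_xh]
  have e : ∀ k ∈ Y.toFinset, NUTP.cs (te ε * exp (I * z y) / exp (I * z k)) =
      cos (z y + ε * lam - z k) := fun k _ => te_cs _ _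
  rw [Finset.prod_congr rfl e]
  ring

end prod

/-! ### The canonical sites -/

section can

variable {K L : List ℂ} {v : Fin 6 → ℂ}

theorem Ic_map (h : ∀ c ∈ K, c ≠ 0) :
    (Ic K.length L.length).map (fun t => exp (I * zc K L v t.1)) = K := by
  unfold Ic
  rw [List.map_map]
  have : ((fun t : Sc K.length L.length × Sc K.length L.length => exp (I * zc K L v t.1)) ∘
      fun k : Fin K.length => ((Sum.inl (k, false), Sum.inl (k, true)) :
        Sc K.length L.length × Sc K.length L.length)) = fun k => K.get k := by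
    funext k
    exact exp_lg (h _ (List.get_mem K k))
  rw [this, ← List.ofFn_eq_map]
  exact List.ofFn_get K

theorem Jc_map (h : ∀ c ∈ L, c ≠ 0) :
    (Jc K.length L.length).map (fun t => exp (I * zc K L v t.1)) = L := by
  unfold Jc
  rw [List.map_map]
  have : ((fun t : Sc K.length L.length × Sc K.length L.length => exp (I * zc K L v t.1)) ∘
      fun k : Fin L.length => ((Sum.inr (Sum.inl (k, false)), Sum.inr (Sum.inl (k, true))) :
        Sc K.length L.length × Sc K.length L.length)) = fun k => L.get k := by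
    funext k
    exact exp_lg (h _ (List.get_mem L k))
  rw [this, ← List.ofFn_eq_map]
  exact List.ofFn_get L

/-- Decomposition of the pairs of sites along a decomposition of the lines. -/
theorem split_last {κ : Type*} {P : List κ} {f : κ → ℂ} {K : List ℂ} {x : ℂ}
    (h : P.map f = K ++ [x]) : ∃ P' t, P = P' ++ [t] ∧ P'.map f = K ∧ f t = x := by
  obtain ⟨P1, P2, rfl, h1, h2⟩ := List.map_eq_append_iff.1 h
  obtain ⟨t, rfl, h3⟩ : ∃ t, P2 = [t] ∧ f t = x := by
    cases P2 with
    | nil => simp at h2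
    | cons t P2 =>
      cases P2 with
      | nil => exact ⟨t, rfl, by simpa using h2⟩
      | cons s P2 => simp at h2
  exact ⟨P1, t, rfl, h1, h3⟩

theorem split_head {κ : Type*} {P : List κ} {f : κ → ℂ} {K : List ℂ} {x : ℂ}
    (h : P.map f = x :: K) : ∃ t P', P = t :: P' ∧ P'.map f = K ∧ f t = x := by
  cases P with
  | nil => simp at h
  | cons t P' =>
    rw [List.map_cons, List.cons.injEq] at h
    exact ⟨t, P', rfl, h.2, h.1⟩

end can

end Pool.Agent.NUTV
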