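import Pool.Agent.NUTV.BrE
import Pool.Agent.NUT2.Tp6

/-!
# Exchange of the two ends (fields `ex1`, `ex2`) (helper70)
-/

set_option autoImplicit false

namespace Pool.Agent.NUTV

open Pool.Agent.NUF Pool.Agent Pool.Agent.NUU Pool.Agent.NUT2
open Pool.Agent.EXL.Fm (lam)
open Complex (I exp sin cos)

section WL

variable {ι : Type*} [DecidableEq ι] [Finite ι] {ε : ℂ} {z : ι → ℂ} {K L : List (ι × ι)}
  {B : List ι} {a b q g k m c d : ι}

omit [DecidableEq ι] [Finite ι] in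
theorem ok_facts (hO : Ok K L [a, b] B q g m k) : a ≠ b ∧ (a ≠ k ∧ b ≠ k) ∧
    (∀ t ∈ K ++ L, a ≠ t.1 ∧ a ≠ t.2) ∧ ∀ t ∈ K ++ L, b ≠ t.1 ∧ b ≠ t.2 := by
  have h1 := hO.nd
  have h2 := hO.k_mem
  unfold sites at h1
  simp only [List.nodup_append, List.nodup_cons, List.map_append, List.mem_append, List.mem_cons,
    List.mem_map] at h1
  refine ⟨?_, ⟨?_, ?_⟩, ?_, ?_⟩
  · grind
  · rcases h2 with rfl | rfl <;> grind
  · rcases h2 with rfl | rfl <;> grind
  · intro t ht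
    have ht' := List.mem_append.1 ht
    constructor
    · rintro rfl
      grind
    · rintro rfl
      grind
  · intro t ht
    have ht' := List.mem_append.1 ht
    constructor
    · rintro rfl
      grind
    · rintro rfl
      grind

omit [Finite ι] in
theorem single_out {x y k : ι} (h1 : x ≠ k) (h2 : y ≠ k) :
    (Pi.single k 1 : ι → ZMod 2) x = (Pi.single k 1 : ι → ZMod 2) y := by
  rw [Pi.single_apply, Pi.single_apply, if_neg h1, if_neg h2]

/-- **Exchange of the two ends**, the line `b` is occupied. -/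
theorem WL_ends (hO : Ok K L [a, b] B q g b k) (hε : Sg ε)
    (hc : c ∉ a :: b :: (L.map Prod.fst ++ q :: K.map Prod.fst))
    (hd : d ∉ a :: b :: (L.map Prod.fst ++ q :: K.map Prod.fst)) (hcd : c ≠ d)
    (hG : Gz z (a :: b :: (L.map Prod.fst ++ q :: K.map Prod.fst))) :
    WL ε z K L [b, a] B q g b k =
      (EXL.rwt (ε * (z b - z a))).v * WL ε z K L [a, b] B q g b k +
        (EXL.rwt (ε * (z b - z a))).u1 * WL ε z K L [a, b] B q g a k := by
  obtain ⟨hab, hk, h1, h2⟩ := ok_facts hO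
  have hG' := gz_eps hε hG
  have e := UD_exch (A := []) (B := L.map Prod.fst ++ q :: K.map Prod.fst) (j := a) (k := b) hO.nd1
    hc hd hcd hG'
  have key := ends_R nu2_neg1 nu2_z1 (χ := Pi.single k 1)
    (V := UD (fun i => -ε * z i) ([a, b] ++ (L.map Prod.fst ++ q :: K.map Prod.fst)))
    (V' := UD (fun i => ε * z i) (B ++ (L.map Prod.snd ++ g :: K.map Prod.snd)))
    (UD_supS _ _) (UD_supS _ _) hO.disj hO.gd hab hk.1 h1 (by simp) (by simp)
    (single_out hk.1 hk.2) (-ε * z a - -ε * z b)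
  unfold WL
  have e' : UD (fun i => -ε * z i) ([a, b] ++ (L.map Prod.fst ++ q :: K.map Prod.fst)) ∘ₗ
      uops.R a b (-ε * z a - -ε * z b) =
        UD (fun i => -ε * z i) ([b, a] ++ (L.map Prod.fst ++ q :: K.map Prod.fst)) := e
  rw [← e', key, show -ε * z a - -ε * z b = ε * (z b - z a) by ring]

/-- **Exchange of the two ends**, the line `a` is occupied. -/
theorem WL_ends' (hO : Ok K L [a, b] B q g a k) (hε : Sg ε)
    (hc : c ∉ a :: b :: (L.map Prod.fst ++ q :: K.map Prod.fst))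
    (hd : d ∉ a :: b :: (L.map Prod.fst ++ q :: K.map Prod.fst)) (hcd : c ≠ d)
    (hG : Gz z (a :: b :: (L.map Prod.fst ++ q :: K.map Prod.fst))) :
    WL ε z K L [b, a] B q g a k =
      (EXL.rwt (ε * (z b - z a))).v * WL ε z K L [a, b] B q g a k +
        (EXL.rwt (ε * (z b - z a))).u1 * WL ε z K L [a, b] B q g b k := by
  obtain ⟨hab, hk, h1, h2⟩ := ok_facts hO
  have hG' := gz_eps hε hG
  have e := UD_exch (A := []) (B := L.map Prod.fst ++ q :: K.map Prod.fst) (j := a) (k := b) hO.nd1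
    hc hd hcd hG'
  have key := ends_R nu2_neg1 nu2_z1 (χ := Pi.single k 1)
    (V := UD (fun i => -ε * z i) ([a, b] ++ (L.map Prod.fst ++ q :: K.map Prod.fst)))
    (V' := UD (fun i => ε * z i) (B ++ (L.map Prod.snd ++ g :: K.map Prod.snd)))
    (UD_supS _ _) (UD_supS _ _) hO.disj hO.gd hab.symm hk.2 h2 (by simp) (by simp)
    (single_out hk.2 hk.1) (-ε * z a - -ε * z b)
  unfold WL
  have e' : UD (fun i => -ε * z i) ([a, b] ++ (L.map Prod.fst ++ q :: K.map Prod.fst)) ∘ₗ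
      uops.R b a (-ε * z a - -ε * z b) =
        UD (fun i => -ε * z i) ([b, a] ++ (L.map Prod.fst ++ q :: K.map Prod.fst)) := by
    rw [(ulaws (ι := ι)).Rs (i := b)]
    exact e
  rw [← e', key, show -ε * z a - -ε * z b = ε * (z b - z a) by ring]

/-- The weights of the exchange. -/
theorem ends_wt (hε : Sg ε) (x y : ℂ) (h : EXL.Fm.Dn (ε * (y - x)) ≠ 0) (F G : ℂ) :
    NUTP.sk (te ε) (NUTP.ea y / NUTP.ea x) *
      ((EXL.rwt (ε * (y - x))).v * G + (EXL.rwt (ε * (y - x))).u1 * F) =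
      NUTP.sn (te ε) 3 (NUTP.ea x / NUTP.ea y) * (NUTP.sn (te ε) 2 1 * F +
        NUTP.sn (te ε) 0 (NUTP.ea y / NUTP.ea x) * G) := by
  rw [te_sk hε, te_sn_div hε, te_sn_div hε, te_s2 hε, EXL.Fm.rwt_eq]
  have e1 : (EXL.Fm.Wc (ε * (y - x))).v =
      (EXL.Fm.Dn (ε * (y - x)))⁻¹ * (sin (ε * (y - x)) * sin (3 * lam - ε * (y - x))) := rfl
  have e2 : (EXL.Fm.Wc (ε * (y - x))).u1 =
      (EXL.Fm.Dn (ε * (y - x)))⁻¹ * (sin (2 * lam) * sin (3 * lam - ε * (y - x))) := rfl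
  rw [e1, e2, show ε * (x - y) + ((3 : ℕ) : ℂ) * lam = 3 * lam - ε * (y - x) by push_cast; ring,
    show ε * (y - x) + ((0 : ℕ) : ℂ) * lam = ε * (y - x) by push_cast; ring]
  field_simp
  ring

end WL

section can

variable {ε : ℂ} {k : Fin 6} {K L : List ℂ} {q g a b : ℂ}

theorem ea_lg {a : ℂ} (ha : a ≠ 0) : NUTP.ea (lg a) = a := exp_lg ha

theorem spare_can {n m : ℕ} {j : Fin 6} (hj : j = 4 ∨ j = 5) :
    (sc j : Sc n m) ∉ sc 2 :: sc 3 :: ((Jc n m).map Prod.fst ++ sc 0 :: (Ic n m).map Prod.fst) := by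
  have h1 := nodup_can (n := n) (m := m) (A := [2, 3, 4, 5]) (B := []) (by decide)
  unfold sites at h1
  simp only [List.nodup_append, List.nodup_cons, List.map_append, List.mem_append, List.mem_cons,
    List.mem_map, List.map_cons, List.map_nil] at h1
  simp only [List.mem_append, List.mem_cons, List.mem_map, not_or]
  rcases hj with rfl | rfl <;> grind

/-- the two exchange relations before the translation of the weights -/
theorem WC_ends (hε : Sg ε) (hk : k = 0 ∨ k = 1) {v : Fin 6 → ℂ} (hv : ∀ j, v j ≠ 0)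
    (hG : NUTP.G NUTP.th (v 2 :: v 3 :: (L ++ v 0 :: K))) :
    (NUTP.sk (te ε) (v 3 / v 2) * WC ε K L (v ∘ Equiv.swap 2 3) [2, 3] [] 2 k =
      NUTP.sn (te ε) 3 (v 2 / v 3) * (NUTP.sn (te ε) 2 1 * WC ε K L v [2, 3] [] 2 k +
        NUTP.sn (te ε) 0 (v 3 / v 2) * WC ε K L v [2, 3] [] 3 k)) ∧
    (NUTP.sk (te ε) (v 3 / v 2) * WC ε K L (v ∘ Equiv.swap 2 3) [2, 3] [] 3 k =
      NUTP.sn (te ε) 3 (v 2 / v 3) * (NUTP.sn (te ε) 2 1 * WC ε K L v [2, 3] [] 3 k +
        NUTP.sn (te ε) 0 (v 3 / v 2) * WC ε K L v [2, 3] [] 2 k)) := by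
  have hgk : Gk (zc K L v) (sc 2 :: sc 3 :: ((Jc K.length L.length).map Prod.fst ++ sc 0 ::
      (Ic K.length L.length).map Prod.fst)) :=
    Gk_can1 (A := [2, 3]) (by decide) hG
  have hD : EXL.Fm.Dn (ε * (lg (v 3) - lg (v 2))) ≠ 0 := by
    have := gz_eps hε.neg hgk.gz
    have h1 := this.d (sc 3) (by simp) (sc 2) (by simp) (by simp [sc])
    rwa [neg_neg, ← mul_sub] at h1
  have p1 := WC_perm6 hε K L v (A := [2, 3]) (B := []) (by decide) (a := 2) (k := k) (by simp) hk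
    (Equiv.swap 2 3) (by decide) (by decide)
  have p2 := WC_perm6 hε K L v (A := [2, 3]) (B := []) (by decide) (a := 3) (k := k) (by simp) hk
    (Equiv.swap 2 3) (by decide) (by decide)
  rw [← p1, ← p2]
  have w := ends_wt hε (lg (v 2)) (lg (v 3)) hD
  rw [ea_lg (hv 2), ea_lg (hv 3)] at w
  constructor
  · have e := WL_ends (z := zc K L v) (ok_can (n := K.length) (m := L.length) (A := [2, 3]) (B := [])
      (by decide) (a := 3) (by simp) hk) hε (spare_can (Or.inl rfl)) (spare_can (Or.inr rfl))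
      (by simp [sc]) hgk.gz
    have e' : WC ε K L v [3, 2] [] 3 k =
        (EXL.rwt (ε * (lg (v 3) - lg (v 2)))).v * WC ε K L v [2, 3] [] 3 k +
          (EXL.rwt (ε * (lg (v 3) - lg (v 2)))).u1 * WC ε K L v [2, 3] [] 2 k := e
    have e0 : ([2, 3] : List (Fin 6)).map (Equiv.swap 2 3) = [3, 2] := by decide
    have e1 : (Equiv.swap 2 3 : Equiv.Perm (Fin 6)) 2 = 3 := by decide
    rw [e0, e1, List.map_nil, e']
    exact w _ _
  · have e := WL_ends' (z := zc K L v) (ok_can (n := K.length) (m := L.length) (A := [2, 3]) (B := [])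
      (by decide) (a := 2) (by simp) hk) hε (spare_can (Or.inl rfl)) (spare_can (Or.inr rfl))
      (by simp [sc]) hgk.gz
    have e' : WC ε K L v [3, 2] [] 2 k =
        (EXL.rwt (ε * (lg (v 3) - lg (v 2)))).v * WC ε K L v [2, 3] [] 2 k +
          (EXL.rwt (ε * (lg (v 3) - lg (v 2)))).u1 * WC ε K L v [2, 3] [] 3 k := e
    have e0 : ([2, 3] : List (Fin 6)).map (Equiv.swap 2 3) = [3, 2] := by decide
    have e1 : (Equiv.swap 2 3 : Equiv.Perm (Fin 6)) 3 = 2 := by decide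
    rw [e0, e1, List.map_nil, e']
    exact w _ _

theorem G_facts (hε : Sg ε) (hG : NUTP.G (te ε) (a :: b :: q :: g :: (K ++ L))) :
    (∀ j, (![q, g, a, b, 1, 1] : Fin 6 → ℂ) j ≠ 0) ∧ NUTP.G NUTP.th (a :: b :: (L ++ q :: K)) := by
  have h := of_te_G hε hG
  have hne : ∀ c ∈ a :: b :: q :: g :: (K ++ L), c ≠ 0 := fun c hc => h.mem_ne0 hc
  refine ⟨?_, ?_⟩
  · intro j
    fin_cases j
    · exact hne q (by simp)
    · exact hne g (by simp)
    · exact hne a (by simp)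
    · exact hne b (by simp)
    · exact one_ne_zero
    · exact one_ne_zero
  · have h1 : NUTP.G NUTP.th (a :: b :: q :: (K ++ L)) :=
      NUTP.G.subl ((List.Sublist.refl _).cons _ |>.cons_cons _ |>.cons_cons _ |>.cons_cons _) h
    refine NUTP.G.perm NUTP.th8 ?_ h1
    refine List.Perm.cons _ (List.Perm.cons _ ?_)
    exact (List.Perm.cons _ List.perm_append_comm).trans List.perm_middle.symm

/-- **Field `ex1`.** -/
theorem fam_ex1 (hε : Sg ε) (hk : k = 0 ∨ k = 1)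
    (hG : NUTP.G (te ε) (a :: b :: q :: g :: (K ++ L))) :
    NUTP.sk (te ε) (b / a) * (fam ε k q g).OE K L b a =
      NUTP.sn (te ε) 3 (a / b) * (NUTP.sn (te ε) 2 1 * (fam ε k q g).OE K L a b +
        NUTP.sn (te ε) 0 (b / a) * (fam ε k q g).EO K L a b) := by
  obtain ⟨hv, hG'⟩ := G_facts hε hG
  have h := (WC_ends hε hk hv hG').1
  have e : (![q, g, a, b, 1, 1] : Fin 6 → ℂ) ∘ Equiv.swap 2 3 = ![q, g, b, a, 1, 1] := by
    funext j
    fin_cases j <;> rfl
  rw [e] at h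
  exact h

/-- **Field `ex2`.** -/
theorem fam_ex2 (hε : Sg ε) (hk : k = 0 ∨ k = 1)
    (hG : NUTP.G (te ε) (a :: b :: q :: g :: (K ++ L))) :
    NUTP.sk (te ε) (b / a) * (fam ε k q g).EO K L b a =
      NUTP.sn (te ε) 3 (a / b) * (NUTP.sn (te ε) 2 1 * (fam ε k q g).EO K L a b +
        NUTP.sn (te ε) 0 (b / a) * (fam ε k q g).OE K L a b) := by
  obtain ⟨hv, hG'⟩ := G_facts hε hG
  have h := (WC_ends hε hk hv hG').2
  have e : (![q, g, a, b, 1, 1] : Fin 6 → ℂ) ∘ Equiv.swap 2 3 = ![q, g, b, a, 1, 1] := by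
    funext j
    fin_cases j <;> rfl
  rw [e] at h
  exact h

end can

end Pool.Agent.NUTV
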