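import Pool.Agent.NUTV.BrE
import Pool.Agent.NUT2.Tp6

/-!
# The nodes of an occupied ended line (helper72)

`WL_lo`: the lowest line `p` (occupied) at the lower node of the highest full line of the group `K`: it goes to the
other side.  `WL_up`: the highest ended line `p` (occupied) at the upper node of the lowest full line of `L`.
-/

set_option autoImplicit false

namespace Pool.Agent.NUTV

open Pool.Agent.NUF Pool.Agent Pool.Agent.NUU Pool.Agent.NUT2
open Pool.Agent.EXL.Fm (lam)
open Complex (I exp sin cos)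

section
variable {ι : Type*} [DecidableEq ι]

theorem uU_symm (i j : ι) : uops.U i j = uops.U j i := by
  by_cases h : i = j
  · rw [h]
  refine LinearMap.ext fun F => ?_
  rw [uops_U_apply h, uops_U_apply (Ne.symm h)]
  funext q
  simp only [EXL.U]
  by_cases e1 : q i = i <;> by_cases e2 : q j = j <;> simp [e1, e2, EXL.Pat.cup_comm]

end

variable {ι : Type*} [DecidableEq ι] [Finite ι] [HasRot ι] {ε : ℂ} {z : ι → ℂ} {K L : List (ι × ι)}
  {A B : List ι} {p x x' y y' q g k b c : ι}

/-- **The lower node of the occupied line.** -/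
theorem WL_lo (hε : Sg ε) (hO : Ok (K ++ [(x, x')]) L (p :: A) B q g p k)
    (hb : b ∉ sites (K ++ [(x, x')]) L (p :: A) B q g)
    (hc : c ∉ sites (K ++ [(x, x')]) L (p :: A) B q g) (hbc : b ≠ c)
    (hG1 : Gk z (A ++ (L.map Prod.fst ++ q :: (K ++ [(x, x')]).map Prod.fst)))
    (hG2 : Gk z (B ++ (L.map Prod.snd ++ g :: (K ++ [(x, x')]).map Prod.snd))) :
    WL ε (Function.update z p (z x - 3 * ε * lam)) (K ++ [(x, x')]) L (p :: A) B q g p k =
      Fr.c3 * (∏ k ∈ (A ++ (L.map Prod.fst ++ q :: K.map Prod.fst)).toFinset,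
        EXL.Fm.Dn (-ε * (z x - z k) + 3 * lam)) *
        WL ε z K L A (x' :: B) q g x' k := by
  set Y : List ι := A ++ (L.map Prod.fst ++ q :: K.map Prod.fst) with hY
  set Y' : List ι := B ++ (L.map Prod.snd ++ g :: K.map Prod.snd) with hY'
  have hn := hO.nd
  have e1 : (p :: A) ++ (L.map Prod.fst ++ q :: (K ++ [(x, x')]).map Prod.fst) = p :: (Y ++ [x]) := by
    rw [hY]
    simp
  have e2 : B ++ (L.map Prod.snd ++ g :: (K ++ [(x, x')]).map Prod.snd) = Y' ++ [x'] := by
    rw [hY']
    simp
  have e3 : A ++ (L.map Prod.fst ++ q :: (K ++ [(x, x')]).map Prod.fst) = Y ++ [x] := by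
    rw [hY]
    simp
  have hS1 := hO.nd1
  have hS2 := hO.nd2
  rw [e1] at hS1
  rw [e2] at hS2 hG2
  rw [e3] at hG1
  -- membership
  have m1 : ∀ w, w ∈ p :: (Y ++ [x]) → w ∈ sites (K ++ [(x, x')]) L (p :: A) B q g := by
    intro w hw
    rw [hY] at hw
    simp only [sites, List.map_append, List.map_cons, List.map_nil, List.mem_append, List.mem_cons,
      List.not_mem_nil, or_false] at hw ⊢
    tauto
  have m2 : ∀ w, w ∈ Y' ++ [x'] → w ∈ sites (K ++ [(x, x')]) L (p :: A) B q g := by
    intro w hw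
    rw [hY'] at hw
    simp only [sites, List.map_append, List.map_cons, List.map_nil, List.mem_append, List.mem_cons,
      List.not_mem_nil, or_false] at hw ⊢
    tauto
  have hdis := hO.disj
  have hdis' : ∀ w, w ∈ p :: (Y ++ [x]) → w ∉ Y' ++ [x'] := by
    intro w h1 h2
    have h3 : w ∈ S1 (K ++ [(x, x')]) L (p :: A) q := by
      show w ∈ (p :: A) ++ (L.map Prod.fst ++ q :: (K ++ [(x, x')]).map Prod.fst)
      rw [e1]
      exact h1
    have h4 : w ∈ S2 (K ++ [(x, x')]) L B g := by
      show w ∈ B ++ (L.map Prod.snd ++ g :: (K ++ [(x, x')]).map Prod.snd)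
      rw [e2]
      exact h2
    exact Set.disjoint_left.1 hdis h3 h4
  have hk : k ≠ p ∧ k ≠ x := by
    have h1 := hO.gd
    unfold Gd at h1
    simp only [List.nodup_append, List.nodup_cons, List.map_append, List.mem_append, List.mem_cons,
      List.map_cons, List.map_nil, List.cons_append, List.not_mem_nil, or_false] at h1
    grind
  -- the left functional does not depend on the rapidity of p
  have u2 : UD (fun i => ε * Function.update z p (z x - 3 * ε * lam) i) (Y' ++ [x']) =
      UD (fun i => ε * z i) (Y' ++ [x']) := by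
    refine UD_congr fun w hw => ?_
    have : w ≠ p := fun h => hdis' p (by simp) (h ▸ hw)
    simp only [Function.update_of_ne this]
  have u3 : UD (fun i => ε * z i) (Y' ++ [x']) = UD (fun i => ε * z i) (x' :: Y') := by
    have hG : Gz (fun i => ε * z i) (Y' ++ [x']) := by
      have := gz_eps hε.neg hG2.gz
      simpa using this
    exact HasRot.rot _ Y' [x'] b c hS2 (fun h => hb (m2 _ h)) (fun h => hc (m2 _ h)) hbc hG
  have hperm : (K ++ [(x, x')] ++ L).Perm ((x, x') :: (K ++ L)) := by
    rw [List.append_assoc]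
    exact List.perm_middle
  unfold WL
  rw [e1, e2, u2, u3]
  have hb1 : b ∉ x :: p :: Y := fun h => hb (m1 _ (by
    simp only [List.mem_cons, List.mem_append] at h ⊢
    tauto))
  have hc1 : c ∉ x :: p :: Y := fun h => hc (m1 _ (by
    simp only [List.mem_cons, List.mem_append] at h ⊢
    tauto))
  have hn1 : (x :: p :: Y).Nodup := by
    refine (List.Perm.nodup_iff ?_).1 hS1
    refine List.Perm.trans (List.Perm.cons p ?_) (List.Perm.swap x p Y)
    exact List.perm_append_comm (l₁ := Y) (l₂ := [x])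
  have hGx : Gk z (x :: Y) := hG1.sub fun w hw => by
    simp only [List.mem_cons, List.mem_append, List.not_mem_nil, or_false] at hw ⊢
    tauto
  have key := line_lo (ν := nu2 1) (χ := Pi.single k 1) (V' := UD (fun i => ε * z i) (x' :: Y'))
    (m := p) (q := k) (L := K ++ [(x, x')] ++ L) hε hn1 hb1 hc1 hbc hGx
  unfold SD at key
  rw [key]
  congr 1
  rw [Wp_perm nu2_neg1 hO.gd hperm]
  have hgd : Gd ((p, k) :: (x, x') :: (K ++ L)) := hO.gd.perm (hperm.cons _)
  refine node_o nu2_neg1 nu2_z1 (S := {w | w ∈ Y}) (S' := {w | w ∈ x' :: Y'}) (UD_supS _ _) (UD_supS _ _)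
    ?_ hgd ?_ ?_ ?_ ?_ ?_
  · rw [Set.disjoint_left]
    intro w h1 h2
    exact hdis' w (by simp only [List.mem_cons, List.mem_append]; exact Or.inr (Or.inl h1))
      (by
        have h2' : w ∈ x' :: Y' := h2
        simp only [List.mem_cons, List.mem_append, List.not_mem_nil, or_false] at h2' ⊢
        tauto)
  · intro h
    exact (List.nodup_cons.1 hS1).1 (by
      have h' : p ∈ Y := h
      simp [h'])
  · intro h
    have h' : x ∈ Y := h
    have := (List.nodup_cons.1 hn1).1
    exact this (by simp [h'])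
  · intro h
    have h' : p ∈ x' :: Y' := h
    exact hdis' p (by simp) (by
      simp only [List.mem_cons, List.mem_append, List.not_mem_nil, or_false] at h' ⊢
      tauto)
  · intro h
    have h' : x ∈ x' :: Y' := h
    exact hdis' x (by simp) (by
      simp only [List.mem_cons, List.mem_append, List.not_mem_nil, or_false] at h' ⊢
      tauto)
  · rw [Pi.single_apply, Pi.single_apply, if_neg hk.2.symm, if_neg hk.1.symm]

/-- **The upper node of the occupied line.** -/
theorem WL_up (hε : Sg ε) (hO : Ok K ((y, y') :: L) (A ++ [p]) B q g p k)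
    (hb : b ∉ sites K ((y, y') :: L) (A ++ [p]) B q g)
    (hc : c ∉ sites K ((y, y') :: L) (A ++ [p]) B q g) (hbc : b ≠ c)
    (hG1 : Gk z (A ++ (((y, y') :: L).map Prod.fst ++ q :: K.map Prod.fst))) :
    Wp (nu2 1) (Pi.single k 1)
      (SD ε (Function.update z p (z y + 3 * ε * lam))
        (p :: (((y, y') :: L).map Prod.fst ++ q :: K.map Prod.fst) ++ A))
      (UD (fun i => ε * z i) (B ++ (((y, y') :: L).map Prod.snd ++ g :: K.map Prod.snd))) p k
      (K ++ (y, y') :: L) =
      Fr.c3 * (∏ k ∈ ((L.map Prod.fst ++ q :: K.map Prod.fst) ++ A).toFinset,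
        EXL.Fm.Dn (-ε * (z y - z k))) *
        WL ε z K L A (B ++ [y']) q g y' k := by
  set Y : List ι := (L.map Prod.fst ++ q :: K.map Prod.fst) ++ A with hY
  set Y' : List ι := B ++ (y' :: (L.map Prod.snd ++ g :: K.map Prod.snd)) with hY'
  have e1 : p :: (((y, y') :: L).map Prod.fst ++ q :: K.map Prod.fst) ++ A = p :: y :: Y := by
    rw [hY]
    simp
  have e2 : B ++ (((y, y') :: L).map Prod.snd ++ g :: K.map Prod.snd) = Y' := by
    rw [hY']
    simp
  have hS1 := hO.nd1
  have hS2 := hO.nd2
  have hS1' : (p :: y :: Y).Nodup := by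
    refine (List.Perm.nodup_iff ?_).1 hS1
    rw [← e1]
    have := List.perm_append_comm (l₁ := A) (l₂ := p :: (((y, y') :: L).map Prod.fst ++ q :: K.map Prod.fst))
    simpa using this
  rw [e2] at hS2
  have m1 : ∀ w, w ∈ p :: y :: Y → w ∈ sites K ((y, y') :: L) (A ++ [p]) B q g := by
    intro w hw
    rw [hY] at hw
    simp only [sites, List.map_append, List.map_cons, List.mem_append, List.mem_cons,
      List.not_mem_nil, or_false] at hw ⊢
    tauto
  have hdis := hO.disj
  have hdis' : ∀ w, w ∈ p :: y :: Y → w ∉ Y' := by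
    intro w h1 h2
    have h3 : w ∈ S1 K ((y, y') :: L) (A ++ [p]) q := by
      show w ∈ (A ++ [p]) ++ (((y, y') :: L).map Prod.fst ++ q :: K.map Prod.fst)
      rw [hY] at h1
      simp only [List.map_cons, List.mem_append, List.mem_cons, List.not_mem_nil, or_false] at h1 ⊢
      tauto
    have h4 : w ∈ S2 K ((y, y') :: L) B g := by
      show w ∈ B ++ (((y, y') :: L).map Prod.snd ++ g :: K.map Prod.snd)
      rw [e2]
      exact h2
    exact Set.disjoint_left.1 hdis h3 h4
  have hk : k ≠ p ∧ k ≠ y := by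
    have h1 := hO.gd
    unfold Gd at h1
    simp only [List.nodup_append, List.nodup_cons, List.map_append, List.mem_append, List.mem_cons,
      List.map_cons, List.cons_append] at h1
    grind
  have hbY : b ∉ Y := fun h => hb (m1 _ (by simp [h]))
  have hcY : c ∉ Y := fun h => hc (m1 _ (by simp [h]))
  have hGy : Gk z (y :: Y) := hG1.sub fun w hw => by
    rw [hY] at hw
    simp only [List.map_cons, List.mem_append, List.mem_cons] at hw ⊢
    tauto
  have hperm : (K ++ (y, y') :: L).Perm ((y, y') :: (K ++ L)) := List.perm_middle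
  rw [e1, e2]
  rw [line_up hε hS1' hbY hcY hbc hGy.gz, uU_symm p y]
  congr 1
  rw [Wp_perm nu2_neg1 hO.gd hperm]
  have hgd : Gd ((p, k) :: (y, y') :: (K ++ L)) := hO.gd.perm (hperm.cons _)
  have u1 : SD ε z Y = UD (fun i => -ε * z i) (A ++ (L.map Prod.fst ++ q :: K.map Prod.fst)) := by
    unfold SD
    have hn2 : (A ++ (L.map Prod.fst ++ q :: K.map Prod.fst)).Nodup := by
      refine (List.Perm.nodup_iff ?_).1 (List.nodup_cons.1 (List.nodup_cons.1 hS1').2).2
      rw [hY]
      exact List.perm_append_comm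
    have hmem : ∀ w, w ∈ A ++ (L.map Prod.fst ++ q :: K.map Prod.fst) → w ∈ Y := fun w hw => by
      rw [hY]
      simp only [List.mem_append] at hw ⊢
      tauto
    have hG : Gz (fun i => -ε * z i) (A ++ (L.map Prod.fst ++ q :: K.map Prod.fst)) :=
      gz_eps hε ((hGy.sub fun w hw => List.mem_cons_of_mem _ (hmem w hw)).gz)
    exact (HasRot.rot _ A (L.map Prod.fst ++ q :: K.map Prod.fst) b c hn2 (fun h => hbY (hmem _ h))
      (fun h => hcY (hmem _ h)) hbc hG).symm
  have u2 : WL ε z K L A (B ++ [y']) q g y' k = Wp (nu2 1) (Pi.single k 1) (SD ε z Y)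
      (UD (fun i => ε * z i) Y') y' k (K ++ L) := by
    unfold WL
    rw [u1]
    have : (B ++ [y']) ++ (L.map Prod.snd ++ g :: K.map Prod.snd) = Y' := by
      rw [hY']
      simp
    rw [this]
  rw [u2]
  refine node_o nu2_neg1 nu2_z1 (S := {w | w ∈ Y}) (S' := {w | w ∈ Y'}) (UD_supS _ _) (UD_supS _ _)
    ?_ hgd ?_ ?_ ?_ ?_ ?_
  · rw [Set.disjoint_left]
    intro w h1 h2
    exact hdis' w (List.mem_cons_of_mem _ (List.mem_cons_of_mem _ h1)) h2
  · intro h
    exact (List.nodup_cons.1 hS1').1 (List.mem_cons_of_mem _ h)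
  · intro h
    exact (List.nodup_cons.1 (List.nodup_cons.1 hS1').2).1 h
  · exact hdis' p (by simp)
  · exact hdis' y (by simp)
  · rw [Pi.single_apply, Pi.single_apply, if_neg hk.2.symm, if_neg hk.1.symm]

end Pool.Agent.NUTV
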