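import Pool.Agent.NUTV.Dict
import Pool.Agent.NUT2.Tp6

/-!
# The field `polR` of the lattice (helper36)

The pairing with one occupied ended line `p` on the side `ε` as a function of this line.
-/

set_option autoImplicit false

namespace Pool.Agent.NUTV

open _root_.Pool.Agent.EXL _root_.Pool.Agent.EXL.Pat Filter Topology Polynomial
open _root_.Pool.Agent.EXL.Fm (lam)
open _root_.Pool.Agent.NUF _root_.Pool.Agent.NUU _root_.Pool.Agent.NUT2
open Complex (I exp sin cos)

section wp

variable {Γ ι : Type*} [AddCommGroup Γ] [DecidableEq ι] [Finite ι] {ν : Γ → ℂ} {χ : ι → Γ}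
  {S S' : Set ι} {V V' : Fnl ι} {m q a b : ι} {L : List (ι × ι)}

theorem pR_Usymm (hν : ∀ g, ν (-g) = ν g) (h0 : ν 0 = 0) (hV : SupS S V) (hV' : SupS S' V')
    (hd : Disjoint S S') (ha : a ∉ S') (hb : b ∉ S') :
    Wp ν χ (V ∘ₗ uops.U a b) V' m q L = Wp ν χ (V ∘ₗ uops.U b a) V' m q L := by
  have q1 : On S'ᶜ (cw.U a b) := On.cU ha hb
  have q2 : On S'ᶜ (cw.U b a) := On.cU hb ha
  unfold Wp
  show pr Γ (V ∘ₗ rep0 ℂ id (cw.U a b)) V' _ = pr Γ (V ∘ₗ rep0 ℂ id (cw.U b a)) V' _
  rw [pr_left h0 hV hV' hd q1, pr_left h0 hV hV' hd q2]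
  show pr Γ V V' ((cops ν).U a b _) = pr Γ V V' ((cops ν).U b a _)
  rw [U_symm hν h0]

end wp

section WL

variable {ι : Type*} [DecidableEq ι] [Finite ι] {ε : ℂ} {z : ι → ℂ} {K L : List (ι × ι)}
  {p q g k x x' y y' b c : ι}

/-- the degree -/
theorem pR_pol (hε : Sg ε) (hO : Ok K L [p] [] q g p k)
    (hb : b ∉ p :: (L.map Prod.fst ++ q :: K.map Prod.fst))
    (hc : c ∉ p :: (L.map Prod.fst ++ q :: K.map Prod.fst)) (hbc : b ≠ c)
    (hG : Gz z (L.map Prod.fst ++ q :: K.map Prod.fst)) : ∃ P : ℂ[X],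
      P.natDegree ≤ K.length + L.length ∧ ∀ s, exp (I * s) ^ (K.length + L.length) *
        WL ε (Function.update z p s) K L [p] [] q g p k = P.eval (exp (I * s) ^ 2) := by
  have hd := hO.disj
  have hl : (L.map Prod.fst ++ q :: K.map Prod.fst).length - 1 = K.length + L.length := by
    simp only [List.length_append, List.length_map, List.length_cons]
    omega
  have hp : p ∉ L.map Prod.snd ++ g :: K.map Prod.snd := fun h =>
    Set.disjoint_left.1 hd (show p ∈ S1 K L [p] q by simp [S1]) h
  obtain ⟨P, a1, a2⟩ := line_O (ν := nu2 1) (χ := Pi.single k 1) (q := k) (L := K ++ L) (p := p)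
    (X := L.map Prod.fst ++ q :: K.map Prod.fst)
    (V' := UD (fun i => ε * z i) (L.map Prod.snd ++ g :: K.map Prod.snd)) hε hO.nd1 hb hc hbc hG nu2_z1
    (UD_supS _ _) hd
  rw [hl] at a1 a2
  refine ⟨P, a1, fun s => ?_⟩
  rw [← a2 s]
  congr 1
  unfold WL
  have e : UD (fun i => ε * Function.update z p s i) ([] ++ (L.map Prod.snd ++ g :: K.map Prod.snd)) =
      UD (fun i => ε * z i) (L.map Prod.snd ++ g :: K.map Prod.snd) := by
    refine UD_congr fun x hx => ?_
    rw [Function.update_of_ne]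
    rintro rfl
    exact hp hx
  rw [e]
  rfl

/-- the upper node -/
theorem pR_up (hε : Sg ε) (hO : Ok K ((y, y') :: L) [p] [] q g p k)
    (hb : b ∉ L.map Prod.fst ++ q :: K.map Prod.fst)
    (hc : c ∉ L.map Prod.fst ++ q :: K.map Prod.fst) (hbc : b ≠ c)
    (hG : Gz z (y :: (L.map Prod.fst ++ q :: K.map Prod.fst))) :
    WL ε (Function.update z p (z y + 3 * ε * lam)) K ((y, y') :: L) [p] [] q g p k =
      Fr.c3 * (∏ i ∈ (L.map Prod.fst ++ q :: K.map Prod.fst).toFinset, Fm.Dn (-ε * (z y - z i))) *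
        WL ε z K L [] [y'] q g y' k := by
  have hd := hO.disj
  have hnd := hO.nd1
  have hgd := hO.gd
  have hp : p ∉ y' :: (L.map Prod.snd ++ g :: K.map Prod.snd) := fun h =>
    Set.disjoint_left.1 hd (show p ∈ S1 K ((y, y') :: L) [p] q by simp [S1]) h
  have hy : y ∉ y' :: (L.map Prod.snd ++ g :: K.map Prod.snd) := fun h =>
    Set.disjoint_left.1 hd (show y ∈ S1 K ((y, y') :: L) [p] q by simp [S1]) h
  have key := line_up (ν := nu2 1) (χ := Pi.single k 1) (q := k) (m := p) (L := K ++ (y, y') :: L)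
    (V' := UD (fun i => ε * z i) (y' :: (L.map Prod.snd ++ g :: K.map Prod.snd))) hε
    (p := p) (y := y) (Y := L.map Prod.fst ++ q :: K.map Prod.fst) hnd hb hc hbc hG
  have e : UD (fun i => ε * Function.update z p (z y + 3 * ε * lam) i)
      (y' :: (L.map Prod.snd ++ g :: K.map Prod.snd)) =
      UD (fun i => ε * z i) (y' :: (L.map Prod.snd ++ g :: K.map Prod.snd)) := by
    refine UD_congr fun x hx => ?_
    rw [Function.update_of_ne]
    rintro rfl
    exact hp hx
  have l1 : WL ε (Function.update z p (z y + 3 * ε * lam)) K ((y, y') :: L) [p] [] q g p k =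
      Wp (nu2 1) (Pi.single k 1) (SD ε (Function.update z p (z y + 3 * ε * lam))
        (p :: y :: (L.map Prod.fst ++ q :: K.map Prod.fst)))
        (UD (fun i => ε * z i) (y' :: (L.map Prod.snd ++ g :: K.map Prod.snd))) p k
          (K ++ (y, y') :: L) := by
    rw [← e]
    rfl
  rw [l1, key]
  congr 1
  have hkp : p ≠ k := by
    have := (Gd_cons.1 hgd).1
    exact this
  have hky : y ≠ k := by
    have h2 := (Gd_cons.1 hgd).2.1 (y, y') (by simp)
    exact (h2.2.2.1).symm
  have hgd' : Gd ((p, k) :: (y, y') :: (K ++ L)) := hgd.perm (List.Perm.cons _ List.perm_middle)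
  have hs1 : SupS {i | i ∈ L.map Prod.fst ++ q :: K.map Prod.fst}
      (SD ε z (L.map Prod.fst ++ q :: K.map Prod.fst)) := UD_supS _ _
  have hs2 : SupS {i | i ∈ y' :: (L.map Prod.snd ++ g :: K.map Prod.snd)}
      (UD (fun i => ε * z i) (y' :: (L.map Prod.snd ++ g :: K.map Prod.snd))) := UD_supS _ _
  have hd' : Disjoint {i | i ∈ L.map Prod.fst ++ q :: K.map Prod.fst}
      {i | i ∈ y' :: (L.map Prod.snd ++ g :: K.map Prod.snd)} := by
    refine Set.disjoint_left.2 fun i hi hj => ?_
    refine Set.disjoint_left.1 hd (show i ∈ S1 K ((y, y') :: L) [p] q from ?_) hj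
    simp only [S1, Set.mem_ofPred_eq, List.mem_append, List.mem_cons, List.map_cons] at hi ⊢
    tauto
  have hn1 := List.nodup_cons.1 hnd
  have hn2 := List.nodup_cons.1 hn1.2
  rw [pR_Usymm nu2_neg1 nu2_z1 hs1 hs2 hd' hp hy, Wp_perm nu2_neg1 hgd List.perm_middle,
    node_o nu2_neg1 nu2_z1 hs1 hs2 hd' hgd' (fun h => hn1.1 (List.mem_cons_of_mem _ h)) hn2.1 hp hy
      (by rw [Pi.single_eq_of_ne hky, Pi.single_eq_of_ne hkp])]
  rfl

/-- the lower node -/
theorem pR_lo [HasRot ι] (hε : Sg ε) (hO : Ok (K ++ [(x, x')]) L [p] [] q g p k)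
    (hb : b ∉ x :: p :: (L.map Prod.fst ++ q :: K.map Prod.fst))
    (hc : c ∉ x :: p :: (L.map Prod.fst ++ q :: K.map Prod.fst))
    (hb' : b ∉ x' :: (L.map Prod.snd ++ g :: K.map Prod.snd))
    (hc' : c ∉ x' :: (L.map Prod.snd ++ g :: K.map Prod.snd)) (hbc : b ≠ c)
    (hG : Gk z (x :: (L.map Prod.fst ++ q :: K.map Prod.fst)))
    (hG' : Gz (fun i => ε * z i) (x' :: (L.map Prod.snd ++ g :: K.map Prod.snd))) :
    WL ε (Function.update z p (z x - 3 * ε * lam)) (K ++ [(x, x')]) L [p] [] q g p k =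
      Fr.c3 * (∏ i ∈ (L.map Prod.fst ++ q :: K.map Prod.fst).toFinset,
        Fm.Dn (-ε * (z x - z i) + 3 * lam)) * WL ε z K L [] [x'] q g x' k := by
  have hd := hO.disj
  have hnd := hO.nd1
  have hnd2 := hO.nd2
  have hgd := hO.gd
  simp only [List.map_append, List.map_cons, List.map_nil, List.nil_append] at hnd hnd2
  have hp : p ∉ x' :: (L.map Prod.snd ++ g :: K.map Prod.snd) := fun h => by
    refine Set.disjoint_left.1 hd (show p ∈ S1 (K ++ [(x, x')]) L [p] q by simp [S1]) ?_
    simp only [S2, Set.mem_ofPred_eq, List.mem_append, List.mem_cons, List.map_append, List.map_cons,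
      List.map_nil] at h ⊢
    tauto
  have hx : x ∉ x' :: (L.map Prod.snd ++ g :: K.map Prod.snd) := fun h => by
    refine Set.disjoint_left.1 hd (show x ∈ S1 (K ++ [(x, x')]) L [p] q by simp [S1]) ?_
    simp only [S2, Set.mem_ofPred_eq, List.mem_append, List.mem_cons, List.map_append, List.map_cons,
      List.map_nil] at h ⊢
    tauto
  have hnd' : (x :: p :: (L.map Prod.fst ++ q :: K.map Prod.fst)).Nodup := by
    refine (List.Perm.nodup_iff ?_).1 hnd
    refine List.Perm.trans ?_ (List.Perm.swap _ _ _)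
    refine List.Perm.cons _ ?_
    have h := List.perm_append_comm (l₁ := L.map Prod.fst ++ q :: K.map Prod.fst) (l₂ := [x])
    simpa using h
  have key := line_lo (ν := nu2 1) (χ := Pi.single k 1) (q := k) (m := p) (L := K ++ [(x, x')] ++ L)
    (V' := UD (fun i => ε * z i) (x' :: (L.map Prod.snd ++ g :: K.map Prod.snd))) hε
    (p := p) (x := x) (Y := L.map Prod.fst ++ q :: K.map Prod.fst) hnd' hb hc hbc hG
  have hr : UD (fun i => ε * z i) ((L.map Prod.snd ++ g :: K.map Prod.snd) ++ [x']) =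
      UD (fun i => ε * z i) (x' :: (L.map Prod.snd ++ g :: K.map Prod.snd)) := by
    refine HasRot.rot _ _ _ b c ?_ ?_ ?_ hbc ?_
    · simpa using hnd2
    · simp only [List.mem_append, List.mem_cons, List.not_mem_nil] at hb' ⊢
      tauto
    · simp only [List.mem_append, List.mem_cons, List.not_mem_nil] at hc' ⊢
      tauto
    · refine hG'.sub fun i hi => ?_
      simp only [List.mem_append, List.mem_cons, List.not_mem_nil] at hi ⊢
      tauto
  have e : UD (fun i => ε * Function.update z p (z x - 3 * ε * lam) i)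
      ((L.map Prod.snd ++ g :: K.map Prod.snd) ++ [x']) =
      UD (fun i => ε * z i) ((L.map Prod.snd ++ g :: K.map Prod.snd) ++ [x']) := by
    refine UD_congr fun i hi => ?_
    rw [Function.update_of_ne]
    rintro rfl
    simp only [List.mem_append, List.mem_cons, List.not_mem_nil] at hp hi
    tauto
  have l1 : WL ε (Function.update z p (z x - 3 * ε * lam)) (K ++ [(x, x')]) L [p] [] q g p k =
      Wp (nu2 1) (Pi.single k 1) (SD ε (Function.update z p (z x - 3 * ε * lam))
        (p :: ((L.map Prod.fst ++ q :: K.map Prod.fst) ++ [x])))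
        (UD (fun i => ε * z i) (x' :: (L.map Prod.snd ++ g :: K.map Prod.snd))) p k
          (K ++ [(x, x')] ++ L) := by
    rw [← hr, ← e]
    unfold WL SD
    simp only [List.map_append, List.map_cons, List.map_nil, List.nil_append, List.cons_append,
      List.append_assoc]
  rw [l1, key]
  congr 1
  have hkp : p ≠ k := (Gd_cons.1 hgd).1
  have hkx : x ≠ k := by
    have h2 := (Gd_cons.1 hgd).2.1 (x, x') (by simp)
    exact (h2.2.2.1).symm
  have hpm : (K ++ [(x, x')] ++ L).Perm ((x, x') :: (K ++ L)) := by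
    rw [List.append_assoc]
    exact List.perm_middle
  have hgd' : Gd ((p, k) :: (x, x') :: (K ++ L)) := hgd.perm (List.Perm.cons _ hpm)
  have hs1 : SupS {i | i ∈ L.map Prod.fst ++ q :: K.map Prod.fst}
      (SD ε z (L.map Prod.fst ++ q :: K.map Prod.fst)) := UD_supS _ _
  have hs2 : SupS {i | i ∈ x' :: (L.map Prod.snd ++ g :: K.map Prod.snd)}
      (UD (fun i => ε * z i) (x' :: (L.map Prod.snd ++ g :: K.map Prod.snd))) := UD_supS _ _
  have hd' : Disjoint {i | i ∈ L.map Prod.fst ++ q :: K.map Prod.fst}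
      {i | i ∈ x' :: (L.map Prod.snd ++ g :: K.map Prod.snd)} := by
    refine Set.disjoint_left.2 fun i hi hj => ?_
    refine Set.disjoint_left.1 hd (show i ∈ S1 (K ++ [(x, x')]) L [p] q from ?_)
      (show i ∈ S2 (K ++ [(x, x')]) L [] g from ?_)
    · simp only [S1, Set.mem_ofPred_eq, List.mem_append, List.mem_cons, List.map_cons, List.map_append]
        at hi ⊢
      tauto
    · simp only [S2, Set.mem_ofPred_eq, List.mem_append, List.mem_cons, List.map_cons, List.map_append]
        at hj ⊢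
      tauto
  have hn1 := List.nodup_cons.1 hnd'
  have hn2 := List.nodup_cons.1 hn1.2
  rw [Wp_perm nu2_neg1 hgd hpm,
    node_o nu2_neg1 nu2_z1 hs1 hs2 hd' hgd' hn2.1 (fun h => hn1.1 (List.mem_cons_of_mem _ h)) hp hx
      (by rw [Pi.single_eq_of_ne hkx, Pi.single_eq_of_ne hkp])]
  rfl

end WL

/-! ### The canonical sites -/

section can

variable {ε q g : ℂ} {k : Fin 6}

/-- the pairing with one ended line on the second side, read on the canonical sites -/
theorem pR_read {ι : Type*} [DecidableEq ι] (hε : Sg ε) {z : ι → ℂ} {K L : List (ι × ι)}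
    {s0 : Fin 6 → ι} (hs : Function.Injective s0) {w : ι} (hw : ∀ j, s0 j ≠ w) (hG : Gd (K ++ L))
    (hd : ∀ j, ∀ t ∈ K ++ L, s0 j ≠ t.1 ∧ s0 j ≠ t.2) (hdw : ∀ t ∈ K ++ L, w ≠ t.1 ∧ w ≠ t.2)
    (hk : k = 0 ∨ k = 1) (hz : ∀ t ∈ K ++ L, z t.2 = z t.1) {y : ℂ}
    (h0 : exp (I * z (s0 0)) = q) (h1 : exp (I * z (s0 1)) = g) (h2 : exp (I * z w) = y)
    {K' L' : List ℂ} (hK : K.map (fun t => exp (I * z t.1)) = K')
    (hL : L.map (fun t => exp (I * z t.1)) = L') :
    WL ε z K L [] [w] (s0 0) (s0 1) w (s0 k) = WC ε K' L' ![q, g, y, 1, 1, 1] [] [2] 2 k := by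
  have e0 : Function.update s0 2 w 0 = s0 0 := Function.update_of_ne (by decide) _ _
  have e1 : Function.update s0 2 w 1 = s0 1 := Function.update_of_ne (by decide) _ _
  have e2 : Function.update s0 2 w 2 = w := Function.update_self _ _ _
  have ek : Function.update s0 2 w k = s0 k := by
    rcases hk with rfl | rfl
    · exact e0
    · exact e1
  have key := WL_eq_WC hε (z := z) (K := K) (L := L) (s := Function.update s0 2 w)
    (hs := ?_) hG ?_ (A := []) (B := [2]) (by decide) (m := 2) (k := k) (by simp) hk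
    (fun t ht => by rw [hz t ht]) (v := ![q, g, y, 1, 1, 1]) ?_ hK hL
  · rw [e0, e1, e2, ek] at key
    simp only [List.map_nil, List.map_cons, e2] at key
    exact key
  · intro i j hij
    by_cases hi : i = 2
    · by_cases hj : j = 2
      · rw [hi, hj]
      · rw [hi, e2, Function.update_of_ne hj] at hij
        exact absurd hij.symm (hw j)
    · by_cases hj : j = 2
      · rw [hj, e2, Function.update_of_ne hi] at hij
        exact absurd hij (hw i)
      · rw [Function.update_of_ne hi, Function.update_of_ne hj] at hij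
        exact hs hij
  · intro j t ht
    by_cases hj : j = 2
    · rw [hj, e2]
      exact hdw t ht
    · rw [Function.update_of_ne hj]
      exact hd j t ht
  · intro j hj
    simp only [List.nil_append, List.mem_cons, List.not_mem_nil, or_false] at hj
    rcases hj with rfl | rfl | rfl
    · rw [e0, h0]
      rfl
    · rw [e1, h1]
      rfl
    · rw [e2, h2]
      rfl

theorem pR_v (q g a : ℂ) :
    (![q, g, a, 1, 1, 1] : Fin 6 → ℂ) = Function.update ![q, g, 1, 1, 1, 1] 2 a := by
  funext j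
  fin_cases j <;> rfl

theorem pR_sc4 {n m : ℕ} {X : List (Sc n m)} {C : List (Fin 6)} {j : Fin 6} (hj : j ∉ C)
    (hX : ∀ x ∈ X, (∃ i ∈ C, x = sc i) ∨ ∃ t ∈ Ic n m ++ Jc n m, x = t.1 ∨ x = t.2) : sc j ∉ X := by
  intro h
  rcases hX _ h with ⟨i, hi, e⟩ | ⟨t, ht, e | e⟩
  · exact hj (sc_inj e ▸ hi)
  · exact (sc_ne j t ht).1 e
  · exact (sc_ne j t ht).2 e

theorem pR_core (hε : Sg ε) (hk : k = 0 ∨ k = 1) [∀ n m, HasRot (Sc n m)] (K L : List ℂ)
    (hG : NUTP.G NUTP.th (q :: g :: (K ++ L))) : ∃ P : ℂ[X], P.natDegree ≤ K.length + L.length ∧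
      (∀ a, a ≠ 0 → a ^ (K.length + L.length) * (fam ε k q g).R K L a = P.eval (a ^ 2)) ∧
      (∀ x K', K = K' ++ [x] → P.eval (te ε ^ 10 * x ^ 2) =
        NUTP.dn (te ε) (K.length + L.length) x (q :: (K' ++ L)) * (fam ε k q g).L K' L x) ∧
      (∀ y L', L = y :: L' → P.eval (te ε ^ 6 * y ^ 2) =
        NUTP.up (te ε) (K.length + L.length) y (q :: (K ++ L')) * (fam ε k q g).L K L' y) := by
  set z := zc K L ![q, g, 1, 1, 1, 1] with hz
  have hKn : ∀ a ∈ K, a ≠ 0 := fun a ha => hG.mem_ne0 (by simp [ha])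
  have hLn : ∀ a ∈ L, a ≠ 0 := fun a ha => hG.mem_ne0 (by simp [ha])
  have hqn : q ≠ 0 := hG.mem_ne0 (by simp)
  have hgn : g ≠ 0 := hG.mem_ne0 (by simp)
  have z0 : exp (I * z (sc 0)) = q := ex_zcs (j := 0) hqn
  have z1 : exp (I * z (sc 1)) = g := ex_zcs (j := 1) hgn
  have hO : Ok (Ic K.length L.length) (Jc K.length L.length) [sc 2] [] (sc 0) (sc 1) (sc 2) (sc k) :=
    ok_can (A := [2]) (B := []) (by decide) (by simp) hk
  have hp1 : NUTP.G NUTP.th (L ++ q :: K) := by
    refine NUTP.G.perm NUTP.th8 (S := q :: (K ++ L)) ?_ (hG.subl (by simp))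
    exact (List.perm_append_comm.cons q).trans List.perm_middle.symm
  have hp2 : NUTP.G NUTP.th (L ++ g :: K) := by
    refine NUTP.G.perm NUTP.th8 (S := g :: (K ++ L)) ?_ hG.tail
    exact (List.perm_append_comm.cons g).trans List.perm_middle.symm
  have g1 : Gk z ((Jc K.length L.length).map Prod.fst ++ sc 0 :: (Ic K.length L.length).map Prod.fst) :=
    Gk_can1 (A := []) (by decide) hp1
  have g2 : Gk z ((Jc K.length L.length).map Prod.snd ++ sc 1 :: (Ic K.length L.length).map Prod.snd) :=
    Gk_can2 (B := []) (by decide) hp2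
  have sp : ∀ j : Fin 6, j = 4 ∨ j = 5 →
      (sc j ∉ sc 2 :: ((Jc K.length L.length).map Prod.fst ++ sc 0 :: (Ic K.length L.length).map Prod.fst)) ∧
      sc j ∉ (Jc K.length L.length).map Prod.snd ++ sc 1 :: (Ic K.length L.length).map Prod.snd := by
    intro j hj
    constructor
    · refine pR_sc4 (C := [2, 0]) (by rcases hj with rfl | rfl <;> decide) fun x hx => ?_
      simp only [List.mem_append, List.mem_cons, List.mem_map] at hx ⊢
      rcases hx with rfl | ⟨t, ht, rfl⟩ | rfl | ⟨t, ht, rfl⟩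
      · exact Or.inl ⟨2, by simp, rfl⟩
      · exact Or.inr ⟨t, Or.inr ht, Or.inl rfl⟩
      · exact Or.inl ⟨0, by simp, rfl⟩
      · exact Or.inr ⟨t, Or.inl ht, Or.inl rfl⟩
    · refine pR_sc4 (C := [1]) (by rcases hj with rfl | rfl <;> decide) fun x hx => ?_
      simp only [List.mem_append, List.mem_cons, List.mem_map] at hx ⊢
      rcases hx with ⟨t, ht, rfl⟩ | rfl | ⟨t, ht, rfl⟩
      · exact Or.inr ⟨t, Or.inr ht, Or.inr rfl⟩
      · exact Or.inl ⟨1, by simp, rfl⟩
      · exact Or.inr ⟨t, Or.inl ht, Or.inr rfl⟩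
  have h45 : (sc 4 : Sc K.length L.length) ≠ sc 5 := fun h => by
    have := sc_inj h
    exact absurd this (by decide)
  obtain ⟨P, a1, a2⟩ := pR_pol hε hO (sp 4 (Or.inl rfl)).1 (sp 5 (Or.inr rfl)).1 h45 g1.gz
  have hlen : (Ic K.length L.length).length + (Jc K.length L.length).length = K.length + L.length := by
    simp [Ic, Jc]
  rw [hlen] at a1 a2
  have eK := Ic_map (L := L) (v := ![q, g, 1, 1, 1, 1]) hKn
  have eL := Jc_map (K := K) (v := ![q, g, 1, 1, 1, 1]) hLn
  have hGd : Gd (Ic K.length L.length ++ Jc K.length L.length) := (Gd_cons.1 hO.gd).2.2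
  have hzp := zc_pair K L ![q, g, 1, 1, 1, 1]
  refine ⟨P, a1, ?_, ?_, ?_⟩
  · intro a ha
    have := a2 (lg a)
    rw [exp_lg ha] at this
    rw [← this]
    congr 1
    show WL ε (zc K L ![q, g, a, 1, 1, 1]) _ _ _ _ _ _ _ _ = _
    rw [pR_v, zc_update]
    rfl
  · -- the lower node
    intro x K' hK'
    obtain ⟨T, ⟨x1, x2⟩, t1, t2, t3⟩ := split_last (eK.trans hK')
    simp only at t3
    have t1' : Ic K.length L.length = T ++ [(x1, x2)] := t1
    rw [t1'] at hO a2 g1 g2 hGd hzp sp
    have hx2 : z x2 = z x1 := hzp (x1, x2) (by simp)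
    have hnd := hO.nd1
    have hsz := hO.nd
    have k1 := a2 (z x1 - 3 * ε * lam)
    have hlo := pR_lo (z := z) hε hO (b := sc 4) (c := sc 5) ?_ ?_ ?_ ?_ h45 ?_ ?_
    rotate_left
    · have := (sp 4 (Or.inl rfl)).1
      simp only [List.mem_append, List.mem_cons, List.map_append, List.map_cons, List.map_nil,
        List.not_mem_nil] at this ⊢
      tauto
    · have := (sp 5 (Or.inr rfl)).1
      simp only [List.mem_append, List.mem_cons, List.map_append, List.map_cons, List.map_nil,
        List.not_mem_nil] at this ⊢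
      tauto
    · have := (sp 4 (Or.inl rfl)).2
      simp only [List.mem_append, List.mem_cons, List.map_append, List.map_cons, List.map_nil,
        List.not_mem_nil] at this ⊢
      tauto
    · have := (sp 5 (Or.inr rfl)).2
      simp only [List.mem_append, List.mem_cons, List.map_append, List.map_cons, List.map_nil,
        List.not_mem_nil] at this ⊢
      tauto
    · refine g1.sub fun i hi => ?_
      simp only [List.mem_append, List.mem_cons, List.map_append, List.map_cons, List.map_nil,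
        List.not_mem_nil] at hi ⊢
      tauto
    · refine (Gk.eps hε g2).gz.sub fun i hi => ?_
      simp only [List.mem_append, List.mem_cons, List.map_append, List.map_cons, List.map_nil,
        List.not_mem_nil] at hi ⊢
      tauto
    rw [hlo, pt_dn2 hε, t3] at k1
    rw [← k1]
    have hYn : ((Jc K.length L.length).map Prod.fst ++ sc 0 :: T.map Prod.fst).Nodup := by
      simp only [List.map_append, List.map_cons, List.map_nil, List.cons_append, List.nil_append,
        List.nodup_cons] at hnd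
      refine hnd.2.sublist ?_
      exact List.Sublist.append_left (List.Sublist.cons_cons _ (List.sublist_append_left _ _)) _
    have hYe : (EL z ((Jc K.length L.length).map Prod.fst ++ sc 0 :: T.map Prod.fst)).Perm
        (q :: (K' ++ L)) := by
      have e1 : EL z ((Jc K.length L.length).map Prod.fst ++ sc 0 :: T.map Prod.fst) =
          L ++ q :: K' := by
        unfold EL
        rw [List.map_append, List.map_cons, List.map_map, List.map_map, z0]
        exact congrArg₂ (fun a b => a ++ q :: b) eL t2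
      rw [e1]
      exact List.perm_middle.trans (List.perm_append_comm.cons q)
    have hdn := dn_eq (z := z) (x := x1) hε hYn hYe (K.length + L.length)
    rw [t3] at hdn
    rw [hdn]
    have hGd' : Gd (T ++ Jc K.length L.length) := by
      have h1 : (T ++ [(x1, x2)] ++ Jc K.length L.length).Perm
          ((x1, x2) :: (T ++ Jc K.length L.length)) := by
        rw [List.append_assoc]
        exact List.perm_middle
      exact (Gd_cons.1 (hGd.perm h1)).2.2
    have hwd : ∀ t ∈ T ++ Jc K.length L.length, x2 ≠ t.1 ∧ x2 ≠ t.2 := by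
      have h1 : (T ++ [(x1, x2)] ++ Jc K.length L.length).Perm
          ((x1, x2) :: (T ++ Jc K.length L.length)) := by
        rw [List.append_assoc]
        exact List.perm_middle
      intro t ht
      have h2 := (Gd_cons.1 (hGd.perm h1)).2.1 t ht
      exact ⟨h2.2.2.1, h2.2.2.2⟩
    have hout : ∀ j : Fin 6, ∀ t ∈ T ++ [(x1, x2)] ++ Jc K.length L.length,
        (sc j : Sc K.length L.length) ≠ t.1 ∧ sc j ≠ t.2 := by
      intro j t ht
      rw [← t1'] at ht
      exact sc_ne j t ht
    have hrd := pR_read (z := z) (K := T) (L := Jc K.length L.length) (s0 := sc) (w := x2) (q := q)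
      (g := g) hε sc_inj (fun j => (hout j (x1, x2) (by simp)).2) hGd'
      (fun j t ht => hout j t (by
        simp only [List.mem_append, List.mem_cons, List.not_mem_nil] at ht ⊢
        tauto)) hwd hk
      (fun t ht => hzp t (by
        simp only [List.mem_append, List.mem_cons, List.not_mem_nil] at ht ⊢
        tauto)) z0 z1 (by rw [hx2, t3]) t2 eL
    rw [hrd]
    show _ = _ * WC ε K' L ![q, g, x, 1, 1, 1] [] [2] 2 k
    ring
  · -- the upper node
    intro y L' hL'
    obtain ⟨⟨y1, y2⟩, T, t1, t2, t3⟩ := split_head (eL.trans hL')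
    simp only at t3
    have t1' : Jc K.length L.length = (y1, y2) :: T := t1
    rw [t1'] at hO a2 g1 g2 hGd hzp sp
    have hy2 : z y2 = z y1 := hzp (y1, y2) (by simp)
    have hnd := hO.nd1
    have k1 := a2 (z y1 + 3 * ε * lam)
    have hup := pR_up (z := z) hε hO (b := sc 4) (c := sc 5) ?_ ?_ h45 ?_
    rotate_left
    · have := (sp 4 (Or.inl rfl)).1
      simp only [List.mem_append, List.mem_cons, List.map_append, List.map_cons, List.map_nil,
        List.not_mem_nil] at this ⊢
      tauto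
    · have := (sp 5 (Or.inr rfl)).1
      simp only [List.mem_append, List.mem_cons, List.map_append, List.map_cons, List.map_nil,
        List.not_mem_nil] at this ⊢
      tauto
    · exact g1.gz
    rw [hup, pt_up2, t3] at k1
    rw [← k1]
    have hYn : (T.map Prod.fst ++ sc 0 :: (Ic K.length L.length).map Prod.fst).Nodup := by
      simp only [List.map_cons, List.cons_append, List.nil_append, List.nodup_cons] at hnd
      exact hnd.2.2
    have hYe : (EL z (T.map Prod.fst ++ sc 0 :: (Ic K.length L.length).map Prod.fst)).Perm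
        (q :: (K ++ L')) := by
      have e1 : EL z (T.map Prod.fst ++ sc 0 :: (Ic K.length L.length).map Prod.fst) =
          L' ++ q :: K := by
        unfold EL
        rw [List.map_append, List.map_cons, List.map_map, List.map_map, z0]
        exact congrArg₂ (fun a b => a ++ q :: b) t2 eK
      rw [e1]
      exact List.perm_middle.trans (List.perm_append_comm.cons q)
    have hdn := up_eq (z := z) (y := y1) hε hYn hYe (K.length + L.length)
    rw [t3] at hdn
    rw [hdn]
    have hpm : (Ic K.length L.length ++ (y1, y2) :: T).Perm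
        ((y1, y2) :: (Ic K.length L.length ++ T)) := List.perm_middle
    have hGd' : Gd (Ic K.length L.length ++ T) := (Gd_cons.1 (hGd.perm hpm)).2.2
    have hwd : ∀ t ∈ Ic K.length L.length ++ T, y2 ≠ t.1 ∧ y2 ≠ t.2 := by
      intro t ht
      have h2 := (Gd_cons.1 (hGd.perm hpm)).2.1 t ht
      exact ⟨h2.2.2.1, h2.2.2.2⟩
    have hout : ∀ j : Fin 6, ∀ t ∈ Ic K.length L.length ++ (y1, y2) :: T,
        (sc j : Sc K.length L.length) ≠ t.1 ∧ sc j ≠ t.2 := by
      intro j t ht
      rw [← t1'] at ht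
      exact sc_ne j t ht
    have hrd := pR_read (z := z) (K := Ic K.length L.length) (L := T) (s0 := sc) (w := y2) (q := q)
      (g := g) hε sc_inj (fun j => (hout j (y1, y2) (by simp)).2) hGd'
      (fun j t ht => hout j t (by
        simp only [List.mem_append, List.mem_cons, List.not_mem_nil] at ht ⊢
        tauto)) hwd hk
      (fun t ht => hzp t (by
        simp only [List.mem_append, List.mem_cons, List.not_mem_nil] at ht ⊢
        tauto)) z0 z1 (by rw [hy2, t3]) eK t2
    rw [hrd]
    show _ = _ * WC ε K L' ![q, g, y, 1, 1, 1] [] [2] 2 k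
    ring

/-- **The field `polR`.** -/
theorem polR (hε : Sg ε) (hk : k = 0 ∨ k = 1) [∀ n m, HasRot (Sc n m)] :
    ∀ K L : List ℂ, NUTP.G (te ε) (q :: g :: (K ++ L)) → ∃ P : ℂ[X],
      P.natDegree ≤ K.length + L.length ∧
      (∀ p, NUTP.G (te ε) (p :: q :: g :: (K ++ L)) →
        p ^ (K.length + L.length) * (fam ε k q g).R K L p = P.eval (p ^ 2)) ∧
      (∀ x K', K.Perm (x :: K') → P.eval (te ε ^ 10 * x ^ 2) =
        (1 : ℂ)⁻¹ * NUTP.dn (te ε) (K.length + L.length) x (q :: (K' ++ L)) *
          (fam ε k q g).L K' L x) ∧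
      (∀ y L', L.Perm (y :: L') → P.eval (te ε ^ 6 * y ^ 2) =
        1 * NUTP.up (te ε) (K.length + L.length) y (q :: (K ++ L')) * (fam ε k q g).L K L' y) := by
  intro K L hG'
  have hG := of_te_G hε hG'
  obtain ⟨P, a1, a2, -, -⟩ := pR_core hε hk K L hG
  -- two orders of the full lines have the same polynomial
  have key : ∀ K1 L1 : List ℂ, K.Perm K1 → L.Perm L1 → ∀ Q : ℂ[X],
      (∀ a, a ≠ 0 → a ^ (K.length + L.length) * (fam ε k q g).R K1 L1 a = Q.eval (a ^ 2)) →
      P = Q := by
    intro K1 L1 hK hL Q hQ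
    rw [← sub_eq_zero]
    refine NUTP.zero_of_gen NUTP.th8 hG fun a ha => ?_
    have ha0 : a ≠ 0 := ha.ne0
    have e1 : NUTP.G NUTP.th (a :: (L ++ q :: K)) := by
      refine NUTP.G.perm NUTP.th8 (S := a :: q :: (K ++ L)) ?_ (ha.subl (by simp))
      exact ((List.perm_append_comm.cons q).trans List.perm_middle.symm).cons a
    have e2 : NUTP.G NUTP.th (L ++ g :: K) := by
      refine NUTP.G.perm NUTP.th8 (S := g :: (K ++ L)) ?_ ha.tail.tail
      exact (List.perm_append_comm.cons g).trans List.perm_middle.symm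
    have e3 : NUTP.G NUTP.th (a :: (L ++ q :: K1)) :=
      e1.perm NUTP.th8 (((hK.cons q).append_left L).cons a)
    have e4 : NUTP.G NUTP.th (L ++ g :: K1) := e2.perm NUTP.th8 ((hK.cons g).append_left L)
    have h1 : (fam ε k q g).R K L a = (fam ε k q g).R K1 L a :=
      WC_permK hε hK (v := ![q, g, a, 1, 1, 1]) (A := [2]) (B := []) (by decide) (by simp) hk e1 e2
    have h2 : (fam ε k q g).R K1 L a = (fam ε k q g).R K1 L1 a :=
      WC_permL hε hL (v := ![q, g, a, 1, 1, 1]) (A := [2]) (B := []) (by decide) (by simp) hk e3 e4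
    rw [Polynomial.eval_sub, ← a2 a ha0, ← hQ a ha0, h1, h2, sub_self]
  refine ⟨P, a1, fun p hp => a2 p hp.ne0, ?_, ?_⟩
  · intro x K' hK
    have hK2 : K.Perm (K' ++ [x]) := hK.trans (List.perm_append_singleton x K').symm
    have hl : (K' ++ [x]).length = K.length := hK2.length_eq.symm
    obtain ⟨Q, b1, b2, b3, -⟩ := pR_core hε hk (K' ++ [x]) L
      (hG.perm NUTP.th8 (((hK2.append_right L).cons g).cons q))
    rw [hl] at b2 b3
    rw [key _ _ hK2 (List.Perm.refl L) Q b2, b3 x K' rfl, inv_one, one_mul]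
  · intro y L' hL
    have hl : (y :: L').length = L.length := hL.length_eq.symm
    obtain ⟨Q, b1, b2, -, b4⟩ := pR_core hε hk K (y :: L')
      (hG.perm NUTP.th8 (((hL.append_left K).cons g).cons q))
    rw [hl] at b2 b4
    rw [key _ _ (List.Perm.refl K) hL Q b2, b4 y L' rfl, one_mul]

/-- The same, with the hypotheses as arguments. -/
theorem fam_polR (hε : Sg ε) (hk : k = 0 ∨ k = 1) [∀ n m, HasRot (Sc n m)] (I J : List ℂ)
    (hG : NUTP.G (te ε) (q :: g :: (I ++ J))) : ∃ P : ℂ[X],
      P.natDegree ≤ I.length + J.length ∧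
      (∀ p, NUTP.G (te ε) (p :: q :: g :: (I ++ J)) →
        p ^ (I.length + J.length) * (fam ε k q g).R I J p = P.eval (p ^ 2)) ∧
      (∀ x I', I.Perm (x :: I') → P.eval (te ε ^ 10 * x ^ 2) =
        (1 : ℂ)⁻¹ * NUTP.dn (te ε) (I.length + J.length) x (q :: (I' ++ J)) *
          (fam ε k q g).L I' J x) ∧
      (∀ y J', J.Perm (y :: J') → P.eval (te ε ^ 6 * y ^ 2) =
        1 * NUTP.up (te ε) (I.length + J.length) y (q :: (I ++ J')) * (fam ε k q g).L I J' y) :=
  polR hε hk I J hG

end can

end Pool.Agent.NUTV
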