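import Pool.Agent.NUTV.Vec
import Pool.Agent.NUT2.Tp3
import Pool.Agent.NUU.Deg

/-!
# The pairing as a function of one ended line (helper70)

`ε = 1` or `ε = -1`; the functional of the side is `UD (fun i => -ε * z i)`.
-/

set_option autoImplicit false

namespace Pool.Agent.NUTV

open _root_.Pool.Agent.EXL _root_.Pool.Agent.EXL.Pat Filter Topology Polynomial
open _root_.Pool.Agent.EXL.Fm (lam)
open _root_.Pool.Agent.NUF _root_.Pool.Agent.NUU _root_.Pool.Agent.NUT2
open Complex (I exp sin cos)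

section wp

variable {Γ ι : Type*} [AddCommGroup Γ] [DecidableEq ι] {ν : Γ → ℂ} {χ : ι → Γ} {S S' : Set ι}
  {V V' : Fnl ι} {m q p : ι} {L : List (ι × ι)}

/-- The pairing as a function of the states of the first factor. -/
noncomputable def WF (ν : Γ → ℂ) (χ : ι → Γ) (V' : Fnl ι) (m q : ι) (L : List (ι × ι)) :
    Pat ι → ℂ := fun a => V' fun b => Tw χ (Gf ν m q L) (ofP Γ (un a b))

theorem Wp_eq : Wp ν χ V V' m q L = V (WF ν χ V' m q L) := rfl

/-- The line `p` is empty. -/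
theorem Wp_E (h0 : ν 0 = 0) (hV : SupS S V) (hV' : SupS S' V') (hd : Disjoint S S') (hp : p ∉ S')
    (h1 : p ≠ m) (h2 : p ≠ q) (h3 : ∀ t ∈ L, p ≠ t.1 ∧ p ≠ t.2) :
    V (opE ℂ p (WF ν χ V' m q L)) = Wp ν χ V V' m q L := by
  have q1 : On S'ᶜ (cw.E p) := On.cE hp
  have e := pr_left (Γ := Γ) h0 hV hV' hd q1 (Tw χ (Gf ν m q L))
  have g1 : repL ν id (cw.E p) (Tw χ (Gf ν m q L)) = Tw χ (Gf ν m q L) := by
    show (cops ν).E p (Tw χ (Gf ν m q L)) = _
    rw [← Module.End.mul_apply, ← (tE χ p).eq, Module.End.mul_apply, E_Gf h1 h2 h3]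
  rw [g1] at e
  unfold Wp
  rw [← e, ← uops_E]
  rfl

/-- The line `m` is occupied. -/
theorem Wp_O (h0 : ν 0 = 0) (hV : SupS S V) (hV' : SupS S' V') (hd : Disjoint S S') (hm : m ∉ S') :
    V (WF ν χ V' m q L - opE ℂ m (WF ν χ V' m q L)) = Wp ν χ V V' m q L := by
  have q1 : On S'ᶜ (cw.E m) := On.cE hm
  have e := pr_left (Γ := Γ) h0 hV hV' hd q1 (Tw χ (Gf ν m q L))
  have g1 : repL ν id (cw.E m) (Tw χ (Gf ν m q L)) = 0 := by
    show (cops ν).E m (Tw χ (Gf ν m q L)) = 0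
    have g2 : Tw χ (Gf ν m q L) = oo ν m (Tw χ (Gf ν m q L)) := by
      rw [← Module.End.mul_apply, ← (comm_oo_Tw χ m).eq, Module.End.mul_apply, oo_Gf]
    rw [g2, ← Module.End.mul_apply, E_oo, LinearMap.zero_apply]
  rw [g1, map_zero] at e
  have e' : V (opE ℂ m (WF ν χ V' m q L)) = 0 := by
    rw [← uops_E]
    exact e
  rw [map_sub, e', sub_zero]
  rfl

end wp

section eps

/-- A sign. -/
def Sg (ε : ℂ) : Prop := ε = 1 ∨ ε = -1

theorem Sg.sq {ε : ℂ} (h : Sg ε) : ε * ε = 1 := by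
  rcases h with rfl | rfl <;> norm_num

theorem Sg.ne {ε : ℂ} (h : Sg ε) : ε ≠ 0 := by
  rcases h with rfl | rfl <;> norm_num

theorem Sg.neg {ε : ℂ} (h : Sg ε) : Sg (-ε) := by
  rcases h with rfl | rfl
  · exact Or.inr rfl
  · exact Or.inl (neg_neg 1)

variable {ι : Type*} {z : ι → ℂ} {X : List ι} {ε : ℂ}

theorem gz_neg (h : Gz z X) : Gz (fun i => -z i) X where
  s i hi j hj hij := by
    have := h.s j hj i hi hij.symm
    rwa [show -z i - -z j = z j - z i by ring]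
  d i hi j hj hij := by
    have := h.d j hj i hi hij.symm
    rwa [show -z i - -z j = z j - z i by ring]

theorem gk_neg (h : Gk z X) : Gk (fun i => -z i) X := by
  intro i hi j hj hij k
  have := h j hj i hi hij.symm k
  rwa [show -z i - -z j = z j - z i by ring]

theorem gz_eps (hε : Sg ε) (h : Gz z X) : Gz (fun i => -ε * z i) X := by
  rcases hε with rfl | rfl
  · simpa using gz_neg h
  · simpa using h

theorem gk_eps (hε : Sg ε) (h : Gk z X) : Gk (fun i => -ε * z i) X := by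
  rcases hε with rfl | rfl
  · simpa using gk_neg h
  · simpa using h

theorem upd_eps [DecidableEq ι] (ε : ℂ) (z : ι → ℂ) (p : ι) (s : ℂ) :
    (fun i => -ε * Function.update z p s i) =
      Function.update (fun i => -ε * z i) p (-ε * s) := by
  funext i
  by_cases h : i = p
  · subst h
    rw [Function.update_self, Function.update_self]
  · rw [Function.update_of_ne h, Function.update_of_ne h]

end eps

section line

variable {Γ ι : Type*} [AddCommGroup Γ] [DecidableEq ι] [Finite ι] {ν : Γ → ℂ} {χ : ι → Γ}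
  {S' : Set ι} {V' : Fnl ι} {m q p b c x y : ι} {L : List (ι × ι)} {z : ι → ℂ} {X Y A B : List ι}
  {ε : ℂ}

/-- The functional of a side. -/
noncomputable def SD (ε : ℂ) (z : ι → ℂ) (X : List ι) : Fnl ι := UD (fun i => -ε * z i) X

/-- **The pairing as a function of an empty ended line.** -/
theorem line_E (hε : Sg ε) (hn : (p :: X).Nodup) (hb : b ∉ p :: X) (hc : c ∉ p :: X)
    (hbc : b ≠ c) (hG : Gz z X) (h0 : ν 0 = 0) (hV' : SupS S' V')
    (hd : Disjoint {i | i ∈ p :: X} S') (h1 : p ≠ m) (h2 : p ≠ q)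
    (h3 : ∀ t ∈ L, p ≠ t.1 ∧ p ≠ t.2) : ∃ P : ℂ[X], P.natDegree ≤ X.length ∧
      P.coeff X.length =
        (∏ k ∈ X.toFinset, (2 * exp (I * z k))⁻¹) * Wp ν χ (SD ε z X) V' m q L ∧
      P.coeff 0 = (∏ k ∈ X.toFinset, exp (I * z k) / 2) * Wp ν χ (SD ε z X) V' m q L ∧
      ∀ s, exp (I * s) ^ X.length * Wp ν χ (SD ε (Function.update z p s) (p :: X)) V' m q L =
        P.eval (exp (I * s) ^ 2) := by
  obtain ⟨P, a1, a2, a3, a4⟩ := UD_degE' hε.neg hn (fun h => hb (by simp [h]))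
    (fun h => hc (by simp [h])) hbc (gz_eps hε hG) (WF ν χ V' m q L)
  refine ⟨P, a1, a2, a3, fun s => ?_⟩
  rw [← a4 s]
  congr 1
  refine (Wp_E h0 (UD_supS _ _) hV' hd ?_ h1 h2 h3).symm
  exact fun h => Set.disjoint_left.1 hd (by simp) h

/-- **The pairing as a function of the occupied ended line.** -/
theorem line_O (hε : Sg ε) (hn : (p :: X).Nodup) (hb : b ∉ p :: X) (hc : c ∉ p :: X)
    (hbc : b ≠ c) (hG : Gz z X) (h0 : ν 0 = 0) (hV' : SupS S' V')
    (hd : Disjoint {i | i ∈ p :: X} S') : ∃ P : ℂ[X], P.natDegree ≤ X.length - 1 ∧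
      ∀ s, exp (I * s) ^ (X.length - 1) *
        Wp ν χ (SD ε (Function.update z p s) (p :: X)) V' p q L = P.eval (exp (I * s) ^ 2) := by
  obtain ⟨P, a1, a4⟩ := UD_degO' hε.neg hn (fun h => hb (by simp [h]))
    (fun h => hc (by simp [h])) hbc (gz_eps hε hG) (WF ν χ V' p q L)
  refine ⟨P, a1, fun s => ?_⟩
  rw [← a4 s]
  congr 1
  refine (Wp_O h0 (UD_supS _ _) hV' hd ?_).symm
  exact fun h => Set.disjoint_left.1 hd (by simp) h

/-- The upper node of the line. -/
theorem line_up (hε : Sg ε) (hn : (p :: y :: Y).Nodup) (hb : b ∉ Y) (hc : c ∉ Y) (hbc : b ≠ c)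
    (hG : Gz z (y :: Y)) :
    Wp ν χ (SD ε (Function.update z p (z y + 3 * ε * lam)) (p :: y :: Y)) V' m q L =
      Fr.c3 * (∏ k ∈ Y.toFinset, Fm.Dn (-ε * (z y - z k))) *
        Wp ν χ (SD ε z Y ∘ₗ uops.U p y) V' m q L := by
  have := node_up (F := WF ν χ V' m q L) hn hb hc hbc (gz_eps hε hG)
  unfold Bf at this
  rw [Wp_eq, Wp_eq]
  unfold SD
  rw [upd_eps, show -ε * (z y + 3 * ε * lam) = -ε * z y - 3 * lam by
    linear_combination (-3 * lam) * hε.sq, this]
  simp only [mul_sub]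
  rfl

/-- The lower node of the line. -/
theorem line_lo [HasRot ι] (hε : Sg ε) (hn : (x :: p :: Y).Nodup) (hb : b ∉ x :: p :: Y)
    (hc : c ∉ x :: p :: Y) (hbc : b ≠ c) (hG : Gk z (x :: Y)) :
    Wp ν χ (SD ε (Function.update z p (z x - 3 * ε * lam)) (p :: (Y ++ [x]))) V' m q L =
      Fr.c3 * (∏ k ∈ Y.toFinset, Fm.Dn (-ε * (z x - z k) + 3 * lam)) *
        Wp ν χ (SD ε z Y ∘ₗ uops.U x p) V' m q L := by
  have := node_lo (F := WF ν χ V' m q L) hn hb hc hbc (gk_eps hε hG)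
  unfold Bf at this
  rw [Wp_eq, Wp_eq]
  unfold SD
  rw [upd_eps, show -ε * (z x - 3 * ε * lam) = -ε * z x + 3 * lam by
    linear_combination (3 * lam) * hε.sq, this]
  have e : ∀ k ∈ Y.toFinset, Fm.Dn (-ε * z x + 3 * lam - -ε * z k) =
      Fm.Dn (-ε * (z x - z k) + 3 * lam) := fun k _ => by
    congr 1
    ring
  rw [Finset.prod_congr rfl e]
  rfl

/-- The fusion point of the line. -/
theorem line_fuse (hε : Sg ε) (hn : (p :: y :: Y).Nodup) (hb : b ∉ p :: y :: Y)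
    (hc : c ∉ p :: y :: Y) (hbc : b ≠ c) (hG : Gk z (y :: Y)) :
    Wp ν χ (SD ε (Function.update z p (z y + 2 * ε * lam)) (p :: y :: Y)) V' m q L =
      Fr.s2 * (∏ k ∈ Y.toFinset, cos (z y + ε * lam - z k)) *
        Wp ν χ (SD ε (Function.update z y (z y + ε * lam)) (y :: Y) ∘ₗ uops.Y y p) V' m q L := by
  have := fuse_up (F := WF ν χ V' m q L) hn hb hc hbc (gk_eps hε hG)
  unfold Bf at this
  rw [Wp_eq, Wp_eq]
  unfold SD
  rw [upd_eps, upd_eps, show -ε * (z y + 2 * ε * lam) = -ε * z y - 2 * lam by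
    linear_combination (-2 * lam) * hε.sq, this, show -ε * (z y + ε * lam) = -ε * z y - lam by
    linear_combination (-lam) * hε.sq]
  have e : ∀ k ∈ Y.toFinset, cos (-ε * z y - lam - -ε * z k) = cos (z y + ε * lam - z k) := by
    intro k _
    rcases hε with rfl | rfl
    · rw [← Complex.cos_neg]
      congr 1
      ring
    · congr 1
      ring
  rw [Finset.prod_congr rfl e]
  rfl

omit [Finite ι] in
/-- For generic rapidities the line may stand anywhere. -/
theorem line_gen [HasRot ι] {s : ℂ} (hε : Sg ε) (hn : (A ++ p :: B).Nodup) (hb : b ∉ A ++ p :: B)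
    (hc : c ∉ A ++ p :: B) (hbc : b ≠ c) (hG : Gz (Function.update z p s) (A ++ p :: B)) :
    SD ε (Function.update z p s) (p :: (B ++ A)) = SD ε (Function.update z p s) (A ++ p :: B) :=
  (HasRot.rot _ A (p :: B) b c hn hb hc hbc (gz_eps hε hG)).symm

end line

end Pool.Agent.NUTV
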